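import Pool.Agent.Q294.Md.Stm

/-! The recursion for pairs of non-crossing matchings. -/

set_option autoImplicit false

namespace Pool.Agent.Q294.Md

open Finset Filter Topology MeasureTheory ProbabilityTheory

noncomputable section

/-- the points between `a` and `b` -/
def inn (P : Finset ℕ) (a b : ℕ) : Finset ℕ := P.filter (fun x => a < x ∧ x < b)

/-- the points outside of `[a, b]` -/
def out (P : Finset ℕ) (a b : ℕ) : Finset ℕ := P.filter (fun x => x < a ∨ b < x)

/-- joining -/
def J (a b : ℕ) (m₁ m₂ : Finset (ℕ × ℕ)) : Finset (ℕ × ℕ) := insert (a, b) (m₁ ∪ m₂)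

lemma mem_NC {P : Finset ℕ} {m : Finset (ℕ × ℕ)} : m ∈ NC P ↔ IsM P m := by
  classical
  unfold NC
  rw [mem_filter, mem_powerset]
  constructor
  · exact fun h => h.2
  · intro h
    refine ⟨fun p hp => ?_, h⟩
    rw [mem_product]
    exact h.mem p hp

lemma mem_inn {P : Finset ℕ} {a b x : ℕ} : x ∈ inn P a b ↔ x ∈ P ∧ a < x ∧ x < b := by
  unfold inn
  rw [mem_filter]

lemma mem_out {P : Finset ℕ} {a b x : ℕ} : x ∈ out P a b ↔ x ∈ P ∧ (x < a ∨ b < x) := by
  unfold out
  rw [mem_filter]

lemma mem_J {a b : ℕ} {m₁ m₂ : Finset (ℕ × ℕ)} {p : ℕ × ℕ} :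
    p ∈ J a b m₁ m₂ ↔ p = (a, b) ∨ p ∈ m₁ ∨ p ∈ m₂ := by
  unfold J
  rw [mem_insert, mem_union]

/-- two pairs of a matching with a common point are equal -/
lemma IsM.uniq {P : Finset ℕ} {m : Finset (ℕ × ℕ)} (h : IsM P m) {p q : ℕ × ℕ} (hp : p ∈ m)
    (hq : q ∈ m) {x : ℕ} (h1 : x = p.1 ∨ x = p.2) (h2 : x = q.1 ∨ x = q.2) : p = q := by
  have hx : x ∈ P := by
    rcases h1 with rfl | rfl
    · exact (h.mem p hp).1
    · exact (h.mem p hp).2
  exact (h.cover x hx).unique ⟨hp, h1⟩ ⟨hq, h2⟩

lemma isM_J {P : Finset ℕ} {a b : ℕ} (ha : a ∈ P) (hb : b ∈ P) (hab : a < b)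
    {m₁ m₂ : Finset (ℕ × ℕ)} (h1 : IsM (inn P a b) m₁) (h2 : IsM (out P a b) m₂) :
    IsM P (J a b m₁ m₂) := by
  have e1 : ∀ p ∈ m₁, (p.1 ∈ P ∧ a < p.1 ∧ p.1 < b) ∧ (p.2 ∈ P ∧ a < p.2 ∧ p.2 < b) := by
    intro p hp
    have := h1.mem p hp
    rw [mem_inn, mem_inn] at this
    exact this
  have e2 : ∀ p ∈ m₂, (p.1 ∈ P ∧ (p.1 < a ∨ b < p.1)) ∧ (p.2 ∈ P ∧ (p.2 < a ∨ b < p.2)) := by
    intro p hp
    have := h2.mem p hp
    rw [mem_out, mem_out] at this
    exact this
  refine ⟨?_, ?_, ?_, ?_⟩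
  · intro p hp
    rw [mem_J] at hp
    rcases hp with rfl | hp | hp
    · exact hab
    · exact h1.lt p hp
    · exact h2.lt p hp
  · intro p hp
    rw [mem_J] at hp
    rcases hp with rfl | hp | hp
    · exact ⟨ha, hb⟩
    · exact ⟨(e1 p hp).1.1, (e1 p hp).2.1⟩
    · exact ⟨(e2 p hp).1.1, (e2 p hp).2.1⟩
  · intro x hx
    by_cases hxab : x = a ∨ x = b
    · refine ⟨(a, b), ⟨mem_J.2 (Or.inl rfl), hxab⟩, ?_⟩
      rintro q ⟨hq, hxq⟩
      rw [mem_J] at hq
      rcases hq with rfl | hq | hq
      · rfl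
      · have := e1 q hq
        exfalso
        rcases hxab with h | h <;> rcases hxq with h' | h' <;> omega
      · have := e2 q hq
        have h5 := h2.lt q hq
        exfalso
        rcases hxab with h | h <;> rcases hxq with h' | h' <;> omega
    · push Not at hxab
      by_cases hin : a < x ∧ x < b
      · obtain ⟨p, ⟨hp, hxp⟩, hu⟩ := h1.cover x (mem_inn.2 ⟨hx, hin⟩)
        refine ⟨p, ⟨mem_J.2 (Or.inr (Or.inl hp)), hxp⟩, ?_⟩
        rintro q ⟨hq, hxq⟩
        rw [mem_J] at hq
        rcases hq with rfl | hq | hq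
        · exfalso
          rcases hxq with h' | h' <;> simp only at h' <;> omega
        · exact hu q ⟨hq, hxq⟩
        · have := e2 q hq
          exfalso
          rcases hxq with h' | h' <;> omega
      · have hout : x < a ∨ b < x := by omega
        obtain ⟨p, ⟨hp, hxp⟩, hu⟩ := h2.cover x (mem_out.2 ⟨hx, hout⟩)
        refine ⟨p, ⟨mem_J.2 (Or.inr (Or.inr hp)), hxp⟩, ?_⟩
        rintro q ⟨hq, hxq⟩
        rw [mem_J] at hq
        rcases hq with rfl | hq | hq
        · exfalso
          rcases hxq with h' | h' <;> simp only at h' <;> omega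
        · have := e1 q hq
          exfalso
          rcases hxq with h' | h' <;> omega
        · exact hu q ⟨hq, hxq⟩
  · intro p hp q hq
    rw [mem_J] at hp hq
    rcases hp with rfl | hp | hp <;> rcases hq with rfl | hq | hq
    · omega
    · have := e1 q hq
      simp only
      omega
    · have := e2 q hq
      simp only
      omega
    · have := e1 p hp
      simp only
      omega
    · exact h1.nc p hp q hq
    · have h3 := e1 p hp
      have h4 := e2 q hq
      have h5 := h2.lt q hq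
      omega
    · have := e2 p hp
      simp only
      omega
    · have h3 := e2 p hp
      have h4 := e1 q hq
      omega
    · exact h2.nc p hp q hq

/-- the pairs of a matching containing `(a, b)` -/
lemma cases_of_mem {P : Finset ℕ} {a b : ℕ} {m : Finset (ℕ × ℕ)} (h : IsM P m) (hab : (a, b) ∈ m)
    {p : ℕ × ℕ} (hp : p ∈ m) : p = (a, b) ∨ (p.1 ∈ inn P a b ∧ p.2 ∈ inn P a b) ∨
      (p.1 ∈ out P a b ∧ p.2 ∈ out P a b) := by
  by_cases hpe : p = (a, b)
  · exact Or.inl hpe
  · right
    have n1 : p.1 ≠ a := fun e => hpe (h.uniq hp hab (x := p.1) (Or.inl rfl) (Or.inl e))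
    have n2 : p.1 ≠ b := fun e => hpe (h.uniq hp hab (x := p.1) (Or.inl rfl) (Or.inr e))
    have n3 : p.2 ≠ a := fun e => hpe (h.uniq hp hab (x := p.2) (Or.inr rfl) (Or.inl e))
    have n4 : p.2 ≠ b := fun e => hpe (h.uniq hp hab (x := p.2) (Or.inr rfl) (Or.inr e))
    have h1 := h.nc p hp (a, b) hab
    have h2 := h.nc (a, b) hab p hp
    have h3 := h.lt p hp
    have h4 := h.lt (a, b) hab
    have h5 := h.mem p hp
    simp only at h1 h2 h4
    rw [mem_inn, mem_inn, mem_out, mem_out]
    have h6 : (a < p.1 ∧ p.1 < b ∧ a < p.2 ∧ p.2 < b) ∨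
        ((p.1 < a ∨ b < p.1) ∧ (p.2 < a ∨ b < p.2)) := by omega
    rcases h6 with h6 | h6
    · exact Or.inl ⟨⟨h5.1, h6.1, h6.2.1⟩, h5.2, h6.2.2⟩
    · exact Or.inr ⟨⟨h5.1, h6.1⟩, h5.2, h6.2⟩

/-- part of the matching on the points of `I` -/
def part (m : Finset (ℕ × ℕ)) (I : Finset ℕ) : Finset (ℕ × ℕ) := m.filter (fun p => p.1 ∈ I)

lemma mem_part {m : Finset (ℕ × ℕ)} {I : Finset ℕ} {p : ℕ × ℕ} :
    p ∈ part m I ↔ p ∈ m ∧ p.1 ∈ I := by
  unfold part
  rw [mem_filter]

lemma inn_out_disj {P : Finset ℕ} {a b x : ℕ} (h1 : x ∈ inn P a b) (h2 : x ∈ out P a b) : False := by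
  rw [mem_inn] at h1
  rw [mem_out] at h2
  omega

lemma isM_inn {P : Finset ℕ} {a b : ℕ} {m : Finset (ℕ × ℕ)} (h : IsM P m) (hab : (a, b) ∈ m) :
    IsM (inn P a b) (part m (inn P a b)) := by
  have hc : ∀ p ∈ m, p = (a, b) ∨ (p.1 ∈ inn P a b ∧ p.2 ∈ inn P a b) ∨
      (p.1 ∈ out P a b ∧ p.2 ∈ out P a b) := fun p hp => cases_of_mem h hab hp
  refine ⟨fun p hp => h.lt p (mem_part.1 hp).1, ?_, ?_,
    fun p hp q hq => h.nc p (mem_part.1 hp).1 q (mem_part.1 hq).1⟩
  · intro p hp
    rw [mem_part] at hp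
    rcases hc p hp.1 with rfl | h1 | h1
    · exfalso
      have := mem_inn.1 hp.2
      simp at this
    · exact h1
    · exact (inn_out_disj hp.2 h1.1).elim
  · intro x hx
    have hx' := mem_inn.1 hx
    obtain ⟨p, ⟨hp, hxp⟩, hu⟩ := h.cover x hx'.1
    refine ⟨p, ⟨mem_part.2 ⟨hp, ?_⟩, hxp⟩, fun q hq => hu q ⟨(mem_part.1 hq.1).1, hq.2⟩⟩
    rcases hc p hp with rfl | h1 | h1
    · exfalso
      simp only at hxp
      omega
    · exact h1.1
    · exfalso
      rcases hxp with rfl | rfl
      · exact inn_out_disj hx h1.1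
      · exact inn_out_disj hx h1.2

lemma isM_out {P : Finset ℕ} {a b : ℕ} {m : Finset (ℕ × ℕ)} (h : IsM P m) (hab : (a, b) ∈ m) :
    IsM (out P a b) (part m (out P a b)) := by
  have hc : ∀ p ∈ m, p = (a, b) ∨ (p.1 ∈ inn P a b ∧ p.2 ∈ inn P a b) ∨
      (p.1 ∈ out P a b ∧ p.2 ∈ out P a b) := fun p hp => cases_of_mem h hab hp
  have hlt := h.lt (a, b) hab
  simp only at hlt
  refine ⟨fun p hp => h.lt p (mem_part.1 hp).1, ?_, ?_,
    fun p hp q hq => h.nc p (mem_part.1 hp).1 q (mem_part.1 hq).1⟩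
  · intro p hp
    rw [mem_part] at hp
    rcases hc p hp.1 with rfl | h1 | h1
    · exfalso
      have := mem_out.1 hp.2
      simp only at this
      omega
    · exact (inn_out_disj h1.1 hp.2).elim
    · exact h1
  · intro x hx
    have hx' := mem_out.1 hx
    obtain ⟨p, ⟨hp, hxp⟩, hu⟩ := h.cover x hx'.1
    refine ⟨p, ⟨mem_part.2 ⟨hp, ?_⟩, hxp⟩, fun q hq => hu q ⟨(mem_part.1 hq.1).1, hq.2⟩⟩
    rcases hc p hp with rfl | h1 | h1
    · exfalso
      simp only at hxp
      omega
    · exfalso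
      rcases hxp with rfl | rfl
      · exact inn_out_disj h1.1 hx
      · exact inn_out_disj h1.2 hx
    · exact h1.1

lemma J_part {P : Finset ℕ} {a b : ℕ} {m : Finset (ℕ × ℕ)} (h : IsM P m) (hab : (a, b) ∈ m) :
    J a b (part m (inn P a b)) (part m (out P a b)) = m := by
  ext p
  rw [mem_J, mem_part, mem_part]
  constructor
  · rintro (rfl | h1 | h1)
    · exact hab
    · exact h1.1
    · exact h1.1
  · intro hp
    rcases cases_of_mem h hab hp with h1 | h1 | h1
    · exact Or.inl h1
    · exact Or.inr (Or.inl ⟨hp, h1.1⟩)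
    · exact Or.inr (Or.inr ⟨hp, h1.1⟩)

lemma part_inn_J {P : Finset ℕ} {a b : ℕ} {m₁ m₂ : Finset (ℕ × ℕ)} (h1 : IsM (inn P a b) m₁)
    (h2 : IsM (out P a b) m₂) : part (J a b m₁ m₂) (inn P a b) = m₁ := by
  ext p
  rw [mem_part, mem_J]
  constructor
  · rintro ⟨rfl | h3 | h3, h4⟩
    · exfalso
      have := mem_inn.1 h4
      simp at this
    · exact h3
    · exact (inn_out_disj h4 (h2.mem p h3).1).elim
  · intro hp
    exact ⟨Or.inr (Or.inl hp), (h1.mem p hp).1⟩

lemma part_out_J {P : Finset ℕ} {a b : ℕ} (hab : a < b) {m₁ m₂ : Finset (ℕ × ℕ)}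
    (h1 : IsM (inn P a b) m₁)
    (h2 : IsM (out P a b) m₂) : part (J a b m₁ m₂) (out P a b) = m₂ := by
  ext p
  rw [mem_part, mem_J]
  constructor
  · rintro ⟨rfl | h3 | h3, h4⟩
    · exfalso
      have := mem_out.1 h4
      simp only at this
      omega
    · exact (inn_out_disj (h1.mem p h3).1 h4).elim
    · exact h3
  · intro hp
    exact ⟨Or.inr (Or.inr hp), (h2.mem p hp).1⟩

/-- summation over the matchings which contain `(a, b)` -/
lemma sum_split {P : Finset ℕ} {a b : ℕ} (ha : a ∈ P) (hb : b ∈ P) (hab : a < b)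
    (F : Finset (ℕ × ℕ) → ℝ) :
    ∑ m ∈ (NC P).filter (fun m => (a, b) ∈ m), F m =
      ∑ m₁ ∈ NC (inn P a b), ∑ m₂ ∈ NC (out P a b), F (J a b m₁ m₂) := by
  rw [← Finset.sum_product']
  refine Finset.sum_nbij' (fun m => (part m (inn P a b), part m (out P a b)))
    (fun x => J a b x.1 x.2) ?_ ?_ ?_ ?_ ?_
  · intro m hm
    rw [mem_filter, mem_NC] at hm
    rw [mem_product, mem_NC, mem_NC]
    exact ⟨isM_inn hm.1 hm.2, isM_out hm.1 hm.2⟩
  · intro x hx
    rw [mem_product, mem_NC, mem_NC] at hx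
    rw [mem_filter, mem_NC]
    exact ⟨isM_J ha hb hab hx.1 hx.2, mem_J.2 (Or.inl rfl)⟩
  · intro m hm
    rw [mem_filter, mem_NC] at hm
    exact J_part hm.1 hm.2
  · intro x hx
    rw [mem_product, mem_NC, mem_NC] at hx
    exact Prod.ext (part_inn_J hx.1 hx.2) (part_out_J hab hx.1 hx.2)
  · intro m hm
    rw [mem_filter, mem_NC] at hm
    rw [J_part hm.1 hm.2]

/-- the first point is matched with exactly one point -/
lemma sum_fiber {P : Finset ℕ} {a : ℕ} (F : ℕ → Finset (ℕ × ℕ) → ℝ) :
    ∑ m ∈ NC P, ∑ b ∈ P.filter (fun b => a < b), (if (a, b) ∈ m then F b m else 0) =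
      ∑ b ∈ P.filter (fun b => a < b), ∑ m ∈ (NC P).filter (fun m => (a, b) ∈ m), F b m := by
  rw [Finset.sum_comm]
  refine Finset.sum_congr rfl fun b _ => ?_
  rw [Finset.sum_filter]

/-- reindexing by the rank -/
lemma sum_rank (R : Finset ℕ) (F : ℕ → ℝ) :
    ∑ b ∈ R, F (R.filter (fun x => x < b)).card = ∑ j ∈ range R.card, F j := by
  induction R using Finset.induction_on_max with
  | empty => simp
  | insert a R ha ih =>
    have hna : a ∉ R := fun h => (lt_irrefl a) (ha a h)
    rw [Finset.sum_insert hna, Finset.card_insert_of_notMem hna, Finset.sum_range_succ, ← ih]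
    have e1 : (insert a R).filter (fun x => x < a) = R := by
      ext x
      rw [mem_filter, mem_insert]
      constructor
      · rintro ⟨rfl | h, h2⟩
        · exact (lt_irrefl _ h2).elim
        · exact h
      · intro h
        exact ⟨Or.inr h, ha x h⟩
    rw [e1, add_comm]
    congr 1
    refine Finset.sum_congr rfl fun b hb => ?_
    congr 2
    ext x
    rw [mem_filter, mem_filter, mem_insert]
    constructor
    · rintro ⟨rfl | h, h2⟩
      · exact (lt_asymm h2 (ha b hb)).elim
      · exact ⟨h, h2⟩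
    · rintro ⟨h, h2⟩
      exact ⟨Or.inr h, h2⟩

/-- the number of non-crossing matchings -/
def cat1 (q : ℕ) : ℝ := if Even q then (catalan (q / 2) : ℝ) else 0

lemma cat1_sq (q : ℕ) : cat1 q ^ 2 = cat2 q := by
  unfold cat1 cat2
  split_ifs <;> simp

lemma cat1_rec (k : ℕ) : cat1 (k + 1) = ∑ j ∈ range k, cat1 j * cat1 (k - 1 - j) := by
  rcases Nat.even_or_odd k with hk | hk
  · -- `k` even: everything vanishes
    have h0 : cat1 (k + 1) = 0 := by
      unfold cat1
      rw [if_neg]
      rw [Nat.not_even_iff_odd]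
      exact hk.add_one
    rw [h0, eq_comm]
    refine Finset.sum_eq_zero fun j hj => ?_
    rw [mem_range] at hj
    rcases Nat.even_or_odd j with h1 | h1
    · have h2 : ¬ Even (k - 1 - j) := by
        obtain ⟨u, hu⟩ := hk
        obtain ⟨v, hv⟩ := h1
        rw [Nat.not_even_iff_odd]
        exact ⟨u - v - 1, by omega⟩
      unfold cat1
      rw [if_neg h2, mul_zero]
    · have h2 : ¬ Even j := Nat.not_even_iff_odd.2 h1
      unfold cat1
      rw [if_neg h2, zero_mul]
  · obtain ⟨m, rfl⟩ := hk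
    have h0 : cat1 (2 * m + 1 + 1) = catalan (m + 1) := by
      unfold cat1
      rw [if_pos ⟨m + 1, by ring⟩]
      congr 2
      omega
    rw [h0, catalan_succ']
    push_cast
    rw [Finset.Nat.sum_antidiagonal_eq_sum_range_succ
      (fun i j => (catalan i : ℝ) * catalan j)]
    -- reindex the even `j`
    have h1 : ∀ j, cat1 j * cat1 (2 * m - j) ≠ 0 → Even j := by
      intro j hj
      by_contra h
      apply hj
      unfold cat1
      rw [if_neg h, zero_mul]
    symm
    rw [← Finset.sum_filter_of_ne (p := fun j => Even j) (fun j _ hj => h1 j hj)]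
    refine Finset.sum_nbij' (fun j => j / 2) (fun i => 2 * i) ?_ ?_ ?_ ?_ ?_
    · intro j hj
      rw [mem_filter, mem_range] at hj
      rw [mem_range]
      omega
    · intro i hi
      rw [mem_range] at hi
      rw [mem_filter, mem_range]
      exact ⟨by omega, ⟨i, by ring⟩⟩
    · intro j hj
      rw [mem_filter] at hj
      obtain ⟨u, hu⟩ := hj.2
      show 2 * (j / 2) = j
      omega
    · intro i _
      show 2 * i / 2 = i
      omega
    · intro j hj
      rw [mem_filter, mem_range] at hj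
      obtain ⟨hj1, u, hu⟩ := hj
      unfold cat1
      rw [if_pos ⟨u, hu⟩, if_pos ⟨m - u, by omega⟩]
      have e1 : (2 * m - j) / 2 = m - j / 2 := by omega
      rw [e1]

lemma card_NC_empty : (NC ∅).card = 1 := by
  rw [Finset.card_eq_one]
  refine ⟨∅, ?_⟩
  ext m
  rw [mem_NC, mem_singleton]
  constructor
  · intro h
    rw [Finset.eq_empty_iff_forall_notMem]
    intro p hp
    have := (h.mem p hp).1
    simp at this
  · rintro rfl
    exact ⟨by simp, by simp, by simp, by simp⟩

/-- the number of matchings by the partner of the first point -/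
lemma card_NC_rec {P : Finset ℕ} {a : ℕ} (ha : a ∈ P) (hmin : ∀ x ∈ P, a ≤ x) :
    ((NC P).card : ℝ) = ∑ b ∈ P.filter (fun b => a < b),
      ((NC (inn P a b)).card : ℝ) * (NC (out P a b)).card := by
  have h1 : ∀ m ∈ NC P, ∑ b ∈ P.filter (fun b => a < b), (if (a, b) ∈ m then (1 : ℝ) else 0) = 1 := by
    intro m hm
    rw [mem_NC] at hm
    obtain ⟨p, ⟨hp, hap⟩, hu⟩ := hm.cover a ha
    have h2 := hm.mem p hp
    have h3 := hm.lt p hp
    have h4 : a = p.1 := by
      rcases hap with h | h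
      · exact h
      · exfalso
        have := hmin _ h2.1
        omega
    rw [Finset.sum_eq_single p.2]
    · rw [if_pos]
      rw [h4]
      exact hp
    · intro b hb hne
      rw [if_neg]
      intro h5
      have h6 := hu (a, b) ⟨h5, Or.inl rfl⟩
      apply hne
      rw [← h6]
    · intro h5
      exfalso
      apply h5
      rw [mem_filter]
      exact ⟨h2.2, by omega⟩
  have h2 : ((NC P).card : ℝ) = ∑ m ∈ NC P, ∑ b ∈ P.filter (fun b => a < b),
      (if (a, b) ∈ m then (1 : ℝ) else 0) := by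
    rw [Finset.sum_congr rfl h1]
    simp
  rw [h2, sum_fiber (fun _ _ => (1 : ℝ))]
  refine Finset.sum_congr rfl fun b hb => ?_
  rw [mem_filter] at hb
  rw [sum_split ha hb.1 hb.2 (fun _ => (1 : ℝ))]
  simp

lemma card_NC (P : Finset ℕ) : ((NC P).card : ℝ) = cat1 P.card := by
  induction hn : P.card using Nat.strong_induction_on generalizing P with
  | _ n ih =>
    rcases P.eq_empty_or_nonempty with rfl | hne
    · rw [card_NC_empty]
      simp only [Finset.card_empty] at hn
      rw [← hn]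
      simp [cat1]
    · obtain ⟨a, ha⟩ : ∃ a, a = P.min' hne := ⟨_, rfl⟩
      have ha1 : a ∈ P := by rw [ha]; exact P.min'_mem hne
      have ha2 : ∀ x ∈ P, a ≤ x := fun x hx => by rw [ha]; exact P.min'_le x hx
      obtain ⟨R, hR⟩ : ∃ R, R = P.filter (fun b => a < b) := ⟨_, rfl⟩
      have hPR : P = insert a R := by
        ext x
        rw [mem_insert, hR, mem_filter]
        constructor
        · intro hx
          rcases eq_or_lt_of_le (ha2 x hx) with h | h
          · exact Or.inl h.symm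
          · exact Or.inr ⟨hx, h⟩
        · rintro (rfl | h)
          · exact ha1
          · exact h.1
      have hna : a ∉ R := by
        rw [hR, mem_filter]
        intro h
        exact lt_irrefl _ h.2
      have hc : P.card = R.card + 1 := by
        rw [hPR, Finset.card_insert_of_notMem hna]
      rw [card_NC_rec ha1 ha2, ← hR]
      have h1 : ∀ b ∈ R, inn P a b = R.filter (fun x => x < b) := by
        intro b _
        ext x
        rw [mem_inn, hR, mem_filter, mem_filter]
        tauto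
      have h2 : ∀ b ∈ R, (out P a b).card = R.card - 1 - (R.filter (fun x => x < b)).card := by
        intro b hb
        have h3 : out P a b = R.filter (fun x => b < x) := by
          have hab : a < b := by
            rw [hR, mem_filter] at hb
            exact hb.2
          ext x
          rw [mem_out, hR, mem_filter, mem_filter]
          constructor
          · rintro ⟨hx, h | h⟩
            · have := ha2 x hx
              omega
            · exact ⟨⟨hx, by omega⟩, h⟩
          · rintro ⟨⟨hx, _⟩, h⟩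
            exact ⟨hx, Or.inr h⟩
        have h4 : R = insert b (R.filter (fun x => x < b) ∪ R.filter (fun x => b < x)) := by
          ext x
          rw [mem_insert, mem_union, mem_filter, mem_filter]
          constructor
          · intro hx
            rcases lt_trichotomy x b with h | h | h
            · exact Or.inr (Or.inl ⟨hx, h⟩)
            · exact Or.inl h
            · exact Or.inr (Or.inr ⟨hx, h⟩)
          · rintro (rfl | h | h)
            · exact hb
            · exact h.1
            · exact h.1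
        have h5 : Disjoint (R.filter (fun x => x < b)) (R.filter (fun x => b < x)) := by
          rw [Finset.disjoint_left]
          intro x hx hy
          rw [mem_filter] at hx hy
          omega
        have h6 : b ∉ R.filter (fun x => x < b) ∪ R.filter (fun x => b < x) := by
          rw [mem_union, mem_filter, mem_filter]
          omega
        have h7 : R.card = (R.filter (fun x => x < b)).card + (R.filter (fun x => b < x)).card + 1 := by
          conv_lhs => rw [h4]
          rw [Finset.card_insert_of_notMem h6, Finset.card_union_of_disjoint h5]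
        rw [h3]
        omega
      have h8 : ∀ b ∈ R, ((NC (inn P a b)).card : ℝ) * (NC (out P a b)).card =
          (fun j => cat1 j * cat1 (R.card - 1 - j)) (R.filter (fun x => x < b)).card := by
        intro b hb
        have h9 : (R.filter (fun x => x < b)).card < R.card := by
          apply Finset.card_lt_card
          rw [Finset.filter_ssubset]
          exact ⟨b, hb, lt_irrefl b⟩
        rw [h1 b hb, ih _ (by omega) _ rfl, ih _ (by rw [h2 b hb]; omega) _ rfl, h2 b hb]
      rw [Finset.sum_congr rfl h8, sum_rank R (fun j => cat1 j * cat1 (R.card - 1 - j)), ← cat1_rec,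
        ← hn, hc]

theorem base : S_base := by
  intro P z t hz
  have h1 : ∀ m ∈ NC P, ∀ v ∈ NC P, (1 + t) ^ ((m ∩ v).filter (fun p => z ≤ p.1)).card = 1 := by
    intro m hm v _
    rw [mem_NC] at hm
    have h2 : (m ∩ v).filter (fun p => z ≤ p.1) = ∅ := by
      rw [Finset.filter_eq_empty_iff]
      intro p hp
      rw [mem_inter] at hp
      have := hz _ (hm.mem p hp.1).1
      omega
    rw [h2, Finset.card_empty, pow_zero]
  unfold V
  rw [Finset.sum_congr rfl fun m hm => Finset.sum_congr rfl (h1 m hm)]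
  rw [← cat1_sq, ← card_NC]
  simp [sq]

/-- the weight factorizes -/
lemma weight_J {P : Finset ℕ} {a b : ℕ} (hab : a < b) {m₁ m₂ v₁ v₂ : Finset (ℕ × ℕ)}
    (h1 : IsM (inn P a b) m₁) (h2 : IsM (out P a b) m₂) (h3 : IsM (inn P a b) v₁)
    (h4 : IsM (out P a b) v₂) :
    ((J a b m₁ m₂ ∩ J a b v₁ v₂).filter (fun p => a + 1 ≤ p.1)).card =
      ((m₁ ∩ v₁).filter (fun p => a ≤ p.1)).card + ((m₂ ∩ v₂).filter (fun p => a ≤ p.1)).card := by
  have hd : Disjoint ((m₁ ∩ v₁).filter (fun p => a ≤ p.1)) ((m₂ ∩ v₂).filter (fun p => a ≤ p.1)) := by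
    rw [Finset.disjoint_left]
    intro p hp hq
    rw [mem_filter, mem_inter] at hp hq
    exact inn_out_disj (h1.mem p hp.1.1).1 (h2.mem p hq.1.1).1
  rw [← Finset.card_union_of_disjoint hd]
  congr 1
  ext p
  rw [mem_filter, mem_inter, mem_J, mem_J, mem_union, mem_filter, mem_filter, mem_inter, mem_inter]
  constructor
  · rintro ⟨⟨h5, h6⟩, h7⟩
    rcases h5 with rfl | h5 | h5
    · simp at h7
    · rcases h6 with rfl | h6 | h6
      · simp at h7
      · exact Or.inl ⟨⟨h5, h6⟩, by omega⟩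
      · exact (inn_out_disj (h1.mem p h5).1 (h4.mem p h6).1).elim
    · rcases h6 with rfl | h6 | h6
      · simp at h7
      · exact (inn_out_disj (h3.mem p h6).1 (h2.mem p h5).1).elim
      · exact Or.inr ⟨⟨h5, h6⟩, by omega⟩
  · rintro (⟨⟨h5, h6⟩, h7⟩ | ⟨⟨h5, h6⟩, h7⟩)
    · have := mem_inn.1 (h1.mem p h5).1
      exact ⟨⟨Or.inr (Or.inl h5), Or.inr (Or.inl h6)⟩, by omega⟩
    · have := mem_out.1 (h2.mem p h5).1
      exact ⟨⟨Or.inr (Or.inr h5), Or.inr (Or.inr h6)⟩, by omega⟩

lemma pair_sum {P : Finset ℕ} {a b : ℕ} (ha : a ∈ P) (hb : b ∈ P) (hab : a < b) (t : ℝ) :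
    ∑ m ∈ (NC P).filter (fun m => (a, b) ∈ m), ∑ v ∈ (NC P).filter (fun v => (a, b) ∈ v),
      (1 + t) ^ ((m ∩ v).filter (fun p => a + 1 ≤ p.1)).card =
      V (inn P a b) a t * V (out P a b) a t := by
  rw [sum_split ha hb hab]
  have h1 : ∀ m₁ ∈ NC (inn P a b), ∀ m₂ ∈ NC (out P a b),
      ∑ v ∈ (NC P).filter (fun v => (a, b) ∈ v),
        (1 + t) ^ ((J a b m₁ m₂ ∩ v).filter (fun p => a + 1 ≤ p.1)).card =
      (∑ v₁ ∈ NC (inn P a b), (1 + t) ^ ((m₁ ∩ v₁).filter (fun p => a ≤ p.1)).card) *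
        ∑ v₂ ∈ NC (out P a b), (1 + t) ^ ((m₂ ∩ v₂).filter (fun p => a ≤ p.1)).card := by
    intro m₁ h1 m₂ h2
    rw [mem_NC] at h1 h2
    rw [sum_split ha hb hab, Finset.sum_mul_sum]
    refine Finset.sum_congr rfl fun v₁ h3 => Finset.sum_congr rfl fun v₂ h4 => ?_
    rw [mem_NC] at h3 h4
    rw [weight_J hab h1 h2 h3 h4, pow_add]
  rw [Finset.sum_congr rfl fun m₁ h2 => Finset.sum_congr rfl fun m₂ h3 => h1 m₁ h2 m₂ h3]
  rw [← Finset.sum_mul_sum]
  rfl

theorem step : S_step := by
  intro P z a t ha hza hmin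
  have key : ∀ m ∈ NC P, ∀ v ∈ NC P, (1 + t) ^ ((m ∩ v).filter (fun p => z ≤ p.1)).card =
      (1 + t) ^ ((m ∩ v).filter (fun p => a + 1 ≤ p.1)).card +
        t * ∑ b ∈ P.filter (fun b => a < b), (if (a, b) ∈ m then
          (if (a, b) ∈ v then (1 + t) ^ ((m ∩ v).filter (fun p => a + 1 ≤ p.1)).card else 0) else 0) := by
    intro m hm v hv
    rw [mem_NC] at hm hv
    by_cases hex : ∃ b, (a, b) ∈ m ∧ (a, b) ∈ v
    · obtain ⟨b, hbm, hbv⟩ := hex
      have h1 : (m ∩ v).filter (fun p => z ≤ p.1) =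
          insert (a, b) ((m ∩ v).filter (fun p => a + 1 ≤ p.1)) := by
        ext p
        rw [mem_filter, mem_insert, mem_filter, mem_inter]
        constructor
        · rintro ⟨⟨h1, h2⟩, h3⟩
          have h4 := hmin _ (hm.mem p h1).1 h3
          rcases eq_or_lt_of_le h4 with h5 | h5
          · left
            exact hm.uniq h1 hbm (x := p.1) (Or.inl rfl) (Or.inl h5.symm)
          · exact Or.inr ⟨⟨h1, h2⟩, h5⟩
        · rintro (rfl | ⟨⟨h1, h2⟩, h3⟩)
          · exact ⟨⟨hbm, hbv⟩, hza⟩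
          · exact ⟨⟨h1, h2⟩, by omega⟩
      have h2 : (a, b) ∉ (m ∩ v).filter (fun p => a + 1 ≤ p.1) := by
        rw [mem_filter]
        simp
      have hb := hm.mem _ hbm
      have hab := hm.lt _ hbm
      simp only at hb hab
      rw [h1, Finset.card_insert_of_notMem h2, pow_succ, Finset.sum_eq_single b]
      · rw [if_pos hbm, if_pos hbv]
        ring
      · intro c _ hne
        rw [if_neg]
        intro h5
        apply hne
        have h6 := hm.uniq h5 hbm (x := a) (Or.inl rfl) (Or.inl rfl)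
        exact (Prod.ext_iff.1 h6).2
      · intro h5
        exact (h5 (mem_filter.2 ⟨hb.2, hab⟩)).elim
    · push Not at hex
      have h1 : (m ∩ v).filter (fun p => z ≤ p.1) = (m ∩ v).filter (fun p => a + 1 ≤ p.1) := by
        ext p
        rw [mem_filter, mem_filter, mem_inter]
        constructor
        · rintro ⟨⟨h1, h2⟩, h3⟩
          have h4 := hmin _ (hm.mem p h1).1 h3
          rcases eq_or_lt_of_le h4 with h5 | h5
          · exfalso
            have h6 : p = (a, p.2) := Prod.ext h5.symm rfl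
            rw [h6] at h1 h2
            exact hex _ h1 h2
          · exact ⟨⟨h1, h2⟩, h5⟩
        · rintro ⟨⟨h1, h2⟩, h3⟩
          exact ⟨⟨h1, h2⟩, by omega⟩
      rw [h1, Finset.sum_eq_zero, mul_zero, add_zero]
      intro b _
      by_cases h2 : (a, b) ∈ m
      · rw [if_pos h2, if_neg (hex b h2)]
      · rw [if_neg h2]
  unfold V
  rw [Finset.sum_congr rfl fun m hm => Finset.sum_congr rfl (key m hm)]
  simp only [Finset.sum_add_distrib, ← Finset.mul_sum]
  congr 2
  have h2 : ∀ m : Finset (ℕ × ℕ), ∑ v ∈ NC P, ∑ b ∈ P.filter (fun b => a < b), (if (a, b) ∈ m then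
      (if (a, b) ∈ v then (1 + t) ^ ((m ∩ v).filter (fun p => a + 1 ≤ p.1)).card else 0) else 0) =
      ∑ b ∈ P.filter (fun b => a < b), (if (a, b) ∈ m then
        ∑ v ∈ (NC P).filter (fun v => (a, b) ∈ v),
          (1 + t) ^ ((m ∩ v).filter (fun p => a + 1 ≤ p.1)).card else 0) := by
    intro m
    rw [Finset.sum_comm]
    refine Finset.sum_congr rfl fun b _ => ?_
    by_cases h3 : (a, b) ∈ m
    · simp only [if_pos h3]
      rw [Finset.sum_filter]
    · simp only [if_neg h3, Finset.sum_const_zero]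
  rw [Finset.sum_congr rfl fun m _ => h2 m, sum_fiber]
  refine Finset.sum_congr rfl fun b hb => ?_
  rw [mem_filter] at hb
  exact pair_sum ha hb.1 hb.2 t

end

end Pool.Agent.Q294.Md
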