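import Pool.Agent.Q294.Md.Base
import Pool.Agent.Q294.Md.Split

/-! From the exact formula to the transform and the moments of the number of common pairs. -/

set_option autoImplicit false

namespace Pool.Agent.Q294.Md

open Finset Filter Topology MeasureTheory ProbabilityTheory

noncomputable section

/-- the matchings of `{1, …, 2n}` -/
def SS (n : ℕ) : Finset (Finset (ℕ × ℕ)) := NC (Icc 1 (2 * n))

/-- the expectation of a function of the number of common pairs -/
def EE (n : ℕ) (F : ℕ → ℝ) : ℝ :=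
  (∑ μ ∈ SS n, ∑ ν ∈ SS n, F (μ ∩ ν).card) / ((SS n).card : ℝ) ^ 2

/-- the transform -/
def TT (n : ℕ) (t : ℝ) : ℝ := ∑ j ∈ range (n + 1), g (n - j) / g n * q t (2 * n + 1) j

/-- the exact formula, without the hypotheses -/
def Formula : Prop := ∀ (n : ℕ) (t : ℝ),
  V (Icc 1 (2 * n)) 0 t = ∑ m ∈ range (n + 1), (catalan m : ℝ) ^ 2 * ((2 * m + 1) / (2 * n + 1)) *
    PowerSeries.coeff (n - m) ((1 + PowerSeries.C t * yy) ^ (2 * n + 1))

lemma yy_eq : yy = PowerSeries.rescale 16 bb := by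
  ext k
  rw [PowerSeries.coeff_rescale]
  unfold yy bb
  rw [PowerSeries.coeff_mk, PowerSeries.coeff_mk]
  unfold b f
  rcases k with _ | k
  · simp
  · rw [if_neg (Nat.succ_ne_zero k), if_neg (Nat.succ_ne_zero k)]
    simp only [Nat.add_sub_cancel]
    rw [pow_succ]
    field_simp
    ring

lemma coeff_yy (t : ℝ) (N j : ℕ) :
    PowerSeries.coeff j ((1 + PowerSeries.C t * yy) ^ N) = 16 ^ j * q t N j := by
  have h1 : (1 + PowerSeries.C t * yy) ^ N =
      PowerSeries.rescale (16 : ℝ) ((1 + PowerSeries.C t * bb) ^ N) := by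
    rw [map_pow, map_add, map_one, map_mul, ← yy_eq]
    congr 3
    ext k
    rw [PowerSeries.coeff_rescale, PowerSeries.coeff_C]
    split_ifs with h
    · rw [h]; simp
    · simp
  rw [h1, PowerSeries.coeff_rescale]
  rfl

lemma V_eq (hF : Formula) (n : ℕ) (t : ℝ) : V (Icc 1 (2 * n)) 0 t =
    16 ^ n / (2 * n + 1) * ∑ j ∈ range (n + 1), g (n - j) * q t (2 * n + 1) j := by
  rw [hF n t, ← Finset.sum_flip, Finset.mul_sum]
  refine Finset.sum_congr rfl fun j hj => ?_
  rw [mem_range] at hj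
  have e1 : n - (n - j) = j := by omega
  rw [e1, coeff_yy]
  unfold g f
  have h1 : (16 : ℝ) ^ n = 16 ^ (n - j) * 16 ^ j := by
    rw [← pow_add]
    congr 1
    omega
  rw [h1]
  field_simp

lemma q_zero_t (N j : ℕ) : q 0 N j = if j = 0 then 1 else 0 := by
  unfold q
  rw [map_zero, zero_mul, add_zero, one_pow, PowerSeries.coeff_one]

lemma card_sq (hF : Formula) (n : ℕ) : ((SS n).card : ℝ) ^ 2 = 16 ^ n / (2 * n + 1) * g n := by
  have h1 := V_eq hF n 0
  rw [Finset.sum_eq_single 0] at h1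
  · rw [q_zero_t, if_pos rfl, mul_one, Nat.sub_zero] at h1
    rw [← h1]
    unfold V SS
    simp [sq]
  · intro j _ hj
    rw [q_zero_t, if_neg hj, mul_zero]
  · intro h
    simp at h

lemma card_sq_pos (hF : Formula) (n : ℕ) : 0 < ((SS n).card : ℝ) ^ 2 := by
  rw [card_sq hF]
  have := g_pos n
  positivity

lemma EE_pow (hF : Formula) (n : ℕ) (t : ℝ) : EE n (fun y => (1 + t) ^ y) = TT n t := by
  have h1 : V (Icc 1 (2 * n)) 0 t = ∑ μ ∈ SS n, ∑ ν ∈ SS n, (1 + t) ^ (μ ∩ ν).card := by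
    unfold V SS
    refine Finset.sum_congr rfl fun μ _ => Finset.sum_congr rfl fun ν _ => ?_
    congr 2
    rw [Finset.filter_eq_self]
    intro p _
    exact Nat.zero_le _
  unfold EE
  rw [← h1, V_eq hF, card_sq hF]
  unfold TT
  have h2 := g_pos n
  have h3 : (0 : ℝ) < 16 ^ n / (2 * n + 1) := by positivity
  rw [mul_div_mul_left _ _ h3.ne', Finset.sum_div]
  refine Finset.sum_congr rfl fun j _ => ?_
  ring

/-- expansion of `q` in powers of `t` -/
lemma q_expand (t : ℝ) (N j : ℕ) : q t N j =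
    ∑ k ∈ range (N + 1), (N.choose k : ℝ) * PowerSeries.coeff j (bb ^ k) * t ^ k := by
  unfold q
  rw [add_comm (1 : PowerSeries ℝ), add_pow, map_sum]
  refine Finset.sum_congr rfl fun k _ => ?_
  rw [one_pow, mul_one, mul_pow, ← map_pow]
  have h5 : ((N.choose k : ℕ) : PowerSeries ℝ) = PowerSeries.C ((N.choose k : ℕ) : ℝ) :=
    (map_natCast (PowerSeries.C) _).symm
  rw [h5, mul_comm _ (PowerSeries.C ((N.choose k : ℕ) : ℝ)), PowerSeries.coeff_C_mul,
    PowerSeries.coeff_C_mul]
  ring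

/-- the factorial moments -/
lemma EE_choose (hF : Formula) (n k : ℕ) (hk : k ≤ 2 * n + 1) : EE n (fun y => (y.choose k : ℝ)) =
    ((2 * n + 1).choose k : ℝ) *
      ∑ j ∈ range (n + 1), g (n - j) / g n * PowerSeries.coeff j (bb ^ k) := by
  obtain ⟨P, hP⟩ : ∃ P : Polynomial ℝ, P = ∑ μ ∈ SS n, ∑ ν ∈ SS n, (1 + Polynomial.X) ^ (μ ∩ ν).card :=
    ⟨_, rfl⟩
  obtain ⟨Q, hQ⟩ : ∃ Q : Polynomial ℝ, Q = ∑ j ∈ range (n + 1), ∑ k ∈ range (2 * n + 1 + 1),
      Polynomial.C (((SS n).card : ℝ) ^ 2 * (g (n - j) / g n * (((2 * n + 1).choose k : ℝ) *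
        PowerSeries.coeff j (bb ^ k)))) * Polynomial.X ^ k := ⟨_, rfl⟩
  have hPQ : P = Q := by
    apply Polynomial.funext
    intro t
    have h1 := EE_pow hF n t
    unfold EE TT at h1
    rw [div_eq_iff (card_sq_pos hF n).ne'] at h1
    rw [hP, hQ]
    simp only [Polynomial.eval_finsetSum, Polynomial.eval_pow, Polynomial.eval_add,
      Polynomial.eval_one, Polynomial.eval_X, Polynomial.eval_mul, Polynomial.eval_C]
    rw [h1, Finset.sum_mul]
    refine Finset.sum_congr rfl fun j _ => ?_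
    rw [q_expand, Finset.mul_sum, Finset.sum_mul]
    refine Finset.sum_congr rfl fun k _ => ?_
    ring
  have h1 : P.coeff k = Q.coeff k := by rw [hPQ]
  rw [hP, hQ] at h1
  simp only [Polynomial.finsetSum_coeff, Polynomial.coeff_one_add_X_pow,
    Polynomial.coeff_C_mul, Polynomial.coeff_X_pow] at h1
  unfold EE
  rw [h1, div_eq_iff (card_sq_pos hF n).ne', Finset.mul_sum, Finset.sum_mul]
  refine Finset.sum_congr rfl fun j _ => ?_
  rw [Finset.sum_eq_single k]
  · rw [if_pos rfl]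
    ring
  · intro i _ hi
    rw [if_neg hi.symm, mul_zero]
  · intro h
    exfalso
    apply h
    rw [mem_range]
    omega

lemma EE_mean (hF : Formula) (n : ℕ) : EE n (fun y => (y : ℝ)) = (2 * n + 1) * al n := by
  have h1 := EE_choose hF n 1 (by omega)
  simp only [Nat.choose_one_right, pow_one] at h1
  rw [h1]
  push_cast
  unfold al bb
  simp only [PowerSeries.coeff_mk]

lemma EE_second (hF : Formula) (n : ℕ) :
    EE n (fun y => (y : ℝ) * ((y : ℝ) - 1)) = (2 * n + 1) * (2 * n) * be n := by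
  rcases Nat.eq_zero_or_pos n with rfl | hn
  · have h2 : SS 0 = NC ∅ := by simp [SS]
    have h3 := card_NC_empty
    unfold EE
    rw [h2]
    obtain ⟨x, hx⟩ := Finset.card_eq_one.1 h3
    have h4 : x = ∅ := by
      have h5 : x ∈ NC ∅ := by rw [hx]; exact mem_singleton_self x
      rw [mem_NC] at h5
      rw [Finset.eq_empty_iff_forall_notMem]
      intro p hp
      have := (h5.mem p hp).1
      simp at this
    rw [hx, h4]
    simp
  · have h1 := EE_choose hF n 2 (by omega)
    have h2 : EE n (fun y => (y : ℝ) * ((y : ℝ) - 1)) = 2 * EE n (fun y => (y.choose 2 : ℝ)) := by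
      unfold EE
      rw [← mul_div_assoc, Finset.mul_sum]
      congr 1
      refine Finset.sum_congr rfl fun μ _ => ?_
      rw [Finset.mul_sum]
      refine Finset.sum_congr rfl fun ν _ => ?_
      show ((μ ∩ ν).card : ℝ) * (((μ ∩ ν).card : ℝ) - 1) = 2 * ((μ ∩ ν).card.choose 2 : ℝ)
      rw [Nat.cast_choose_two]
      ring
    rw [h2, h1, Nat.cast_choose_two]
    push_cast
    have h3 : ∀ j, PowerSeries.coeff j (bb ^ 2) = b2 j := by
      intro j
      rw [sq, PowerSeries.coeff_mul]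
      unfold b2 bb
      simp only [PowerSeries.coeff_mk]
    simp only [h3]
    unfold be
    ring

end

end Pool.Agent.Q294.Md
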