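import Pool.Agent.Q294.Md.Asm1
import Pool.Agent.Q273.WL1

/-! The central limit theorem from the limit of the transform and the asymptotics of the moments. -/

set_option autoImplicit false

namespace Pool.Agent.Q294.Md

open Finset Filter Topology MeasureTheory ProbabilityTheory

noncomputable section

/-! ### Two elementary limits -/

lemma exp_lim : Tendsto (fun x : ℝ => (Real.exp x - 1 - x) / x ^ 2) (𝓝[≠] 0) (𝓝 (1 / 2)) := by
  rw [← tendsto_sub_nhds_zero_iff]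
  refine squeeze_zero_norm' (a := fun x : ℝ => |x|) ?_ ?_
  · have h1 : ∀ᶠ x : ℝ in 𝓝[≠] 0, |x| < 1 := by
      refine (Metric.eventually_nhds_iff.2 ⟨1, one_pos, fun x hx => ?_⟩).filter_mono nhdsWithin_le_nhds
      rwa [Real.dist_eq, sub_zero] at hx
    filter_upwards [h1, self_mem_nhdsWithin] with x hx h0
    have h0' : x ≠ 0 := h0
    have h2 := Real.exp_bound (x := x) hx.le (n := 3) (by norm_num)
    have h3 : ∑ m ∈ range 3, x ^ m / (m.factorial : ℝ) = 1 + x + x ^ 2 / 2 := by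
      simp [Finset.sum_range_succ, Nat.factorial]
    rw [h3] at h2
    have h4 : (Real.exp x - 1 - x) / x ^ 2 - 1 / 2 = (Real.exp x - (1 + x + x ^ 2 / 2)) / x ^ 2 := by
      field_simp
      ring
    rw [h4, Real.norm_eq_abs, abs_div, abs_pow]
    have h5 : 0 < |x| := abs_pos.2 h0'
    rw [div_le_iff₀ (by positivity)]
    refine h2.trans ?_
    have h6 : (((3 : ℕ).succ : ℝ) / (((3 : ℕ).factorial : ℝ) * ((3 : ℕ) : ℝ))) ≤ 1 := by
      norm_num [Nat.factorial]
    calc |x| ^ 3 * (((3 : ℕ).succ : ℝ) / (((3 : ℕ).factorial : ℝ) * ((3 : ℕ) : ℝ))) ≤ |x| ^ 3 * 1 :=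
          mul_le_mul_of_nonneg_left h6 (by positivity)
      _ = |x| * |x| ^ 2 := by ring
  · have : Tendsto (fun x : ℝ => |x|) (𝓝 0) (𝓝 |0|) := (continuous_abs.tendsto 0)
    rw [abs_zero] at this
    exact this.mono_left nhdsWithin_le_nhds

lemma log_lim : Tendsto (fun x : ℝ => (Real.log (1 + x) - x) / x ^ 2) (𝓝[≠] 0) (𝓝 (-(1 / 2))) := by
  rw [← tendsto_sub_nhds_zero_iff]
  refine squeeze_zero_norm' (a := fun x : ℝ => 2 * |x|) ?_ ?_
  · have h1 : ∀ᶠ x : ℝ in 𝓝[≠] 0, |x| < 1 / 2 := by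
      refine (Metric.eventually_nhds_iff.2 ⟨1 / 2, by norm_num, fun x hx => ?_⟩).filter_mono
        nhdsWithin_le_nhds
      rwa [Real.dist_eq, sub_zero] at hx
    filter_upwards [h1, self_mem_nhdsWithin] with x hx h0
    have h0' : x ≠ 0 := h0
    have h2 := Real.abs_log_sub_add_sum_range_le (x := -x) (by rw [abs_neg]; linarith) 2
    have h3 : ∑ i ∈ range 2, (-x) ^ (i + 1) / ((i : ℝ) + 1) = -x + x ^ 2 / 2 := by
      simp [Finset.sum_range_succ]
      norm_num
    rw [h3, abs_neg, sub_neg_eq_add] at h2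
    have h4 : (Real.log (1 + x) - x) / x ^ 2 - -(1 / 2) = (-x + x ^ 2 / 2 + Real.log (1 + x)) / x ^ 2 := by
      field_simp
      ring
    rw [h4, Real.norm_eq_abs, abs_div, abs_pow]
    have h5 : 0 < |x| := abs_pos.2 h0'
    rw [div_le_iff₀ (by positivity)]
    refine h2.trans ?_
    rw [div_le_iff₀ (by linarith)]
    have h6 : |x| ^ (2 + 1) = |x| * |x| ^ 2 := by ring
    rw [h6]
    have h7 : 0 < |x| * |x| ^ 2 := by positivity
    nlinarith
  · have : Tendsto (fun x : ℝ => 2 * |x|) (𝓝 0) (𝓝 (2 * |0|)) :=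
      ((continuous_abs.tendsto 0).const_mul 2)
    rw [abs_zero, mul_zero] at this
    exact this.mono_left nhdsWithin_le_nhds

lemma expm_div : Tendsto (fun x : ℝ => (Real.exp x - 1) / x) (𝓝[≠] 0) (𝓝 1) := by
  have h1 : Tendsto (fun x : ℝ => 1 + x * ((Real.exp x - 1 - x) / x ^ 2)) (𝓝[≠] 0)
      (𝓝 (1 + 0 * (1 / 2))) :=
    (((continuous_id.tendsto 0).mono_left nhdsWithin_le_nhds).mul exp_lim).const_add 1
  rw [zero_mul, add_zero] at h1
  refine h1.congr' ?_
  filter_upwards [self_mem_nhdsWithin] with x h0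
  have h0' : x ≠ 0 := h0
  field_simp
  ring

lemma h_lim {y : ℝ} (hy : 0 < y) :
    Tendsto (fun x : ℝ => (Real.log (1 + y * (Real.exp x - 1)) - y * x) / x ^ 2) (𝓝[≠] 0)
      (𝓝 ((y - y ^ 2) / 2)) := by
  have h1 : Tendsto (fun x : ℝ => y * (Real.exp x - 1)) (𝓝[≠] 0) (𝓝[≠] 0) := by
    rw [tendsto_nhdsWithin_iff]
    constructor
    · have : Tendsto (fun x : ℝ => y * (Real.exp x - 1)) (𝓝 0) (𝓝 (y * (Real.exp 0 - 1))) :=
        (((Real.continuous_exp.tendsto 0).sub_const 1).const_mul y)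
      rw [Real.exp_zero, sub_self, mul_zero] at this
      exact this.mono_left nhdsWithin_le_nhds
    · filter_upwards [self_mem_nhdsWithin] with x h0
      have h0' : x ≠ 0 := h0
      intro h
      rw [Set.mem_singleton_iff, mul_eq_zero, sub_eq_zero] at h
      rcases h with h | h
      · exact hy.ne' h
      · exact h0' ((Real.exp_eq_one_iff x).1 h)
  have h2 := log_lim.comp h1
  have h3 := ((expm_div.const_mul y).pow 2)
  have h4 := (h2.mul h3).add (exp_lim.const_mul y)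
  have e1 : -(1 / 2) * (y * 1) ^ 2 + y * (1 / 2) = (y - y ^ 2) / 2 := by ring
  rw [e1] at h4
  refine h4.congr' ?_
  filter_upwards [self_mem_nhdsWithin] with x h0
  have h0' : x ≠ 0 := h0
  have h5 : Real.exp x - 1 ≠ 0 := by
    intro h
    rw [sub_eq_zero] at h
    exact h0' ((Real.exp_eq_one_iff x).1 h)
  simp only [Function.comp]
  field_simp
  ring

/-! ### The variance -/

/-- the mean -/
def mn (n : ℕ) : ℝ := EE n (fun y => (y : ℝ))

/-- the variance -/
def vr (n : ℕ) : ℝ := EE n (fun y => ((y : ℝ) - mn n) ^ 2)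

lemma EE_add (n : ℕ) (F G : ℕ → ℝ) : EE n (fun y => F y + G y) = EE n F + EE n G := by
  unfold EE
  simp only [Finset.sum_add_distrib]
  rw [add_div]

lemma EE_mul (n : ℕ) (c : ℝ) (F : ℕ → ℝ) : EE n (fun y => c * F y) = c * EE n F := by
  unfold EE
  simp only [← Finset.mul_sum]
  rw [mul_div_assoc]

lemma EE_one (hF : Formula) (n : ℕ) : EE n (fun _ => 1) = 1 := by
  unfold EE
  rw [div_eq_one_iff_eq (card_sq_pos hF n).ne']
  simp [sq]

lemma vr_eq (hF : Formula) (n : ℕ) :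
    vr n = (2 * n + 1) ^ 2 * (be n - al n ^ 2) + (2 * n + 1) * (al n - be n) := by
  have h1 : vr n = EE n (fun y => (y : ℝ) * ((y : ℝ) - 1)) + (1 - 2 * mn n) * EE n (fun y => (y : ℝ)) +
      mn n ^ 2 * EE n (fun _ => 1) := by
    rw [← EE_mul, ← EE_mul, ← EE_add, ← EE_add]
    unfold vr
    congr 1
    funext y
    ring
  rw [h1, EE_one hF, EE_second hF, EE_mean hF]
  unfold mn
  rw [EE_mean hF]
  ring

lemma al_lim (hm : S_mean) : Tendsto al atTop (𝓝 y0) := by
  obtain ⟨C, hC⟩ := hm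
  rw [← tendsto_sub_nhds_zero_iff]
  refine squeeze_zero_norm' (a := fun n : ℕ => C / n) ?_ (tendsto_const_div_atTop_nhds_zero_nat C)
  filter_upwards [eventually_gt_atTop 0] with n hn
  have h1 : (0 : ℝ) < n := by exact_mod_cast hn
  rw [Real.norm_eq_abs, le_div_iff₀ h1]
  have h2 := hC n
  rw [abs_mul, abs_of_pos h1] at h2
  linarith

lemma be_lim (hm : S_mean) (hv : S_var) : Tendsto be atTop (𝓝 (y0 ^ 2)) := by
  have h1 : Tendsto (fun n : ℕ => ((n : ℝ))⁻¹ * (n * (be n - al n ^ 2))) atTop (𝓝 (0 * 0)) :=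
    (tendsto_inv_atTop_nhds_zero_nat (𝕜 := ℝ)).mul hv
  have h2 := h1.add ((al_lim hm).pow 2)
  rw [mul_zero, zero_add] at h2
  refine h2.congr' ?_
  filter_upwards [eventually_gt_atTop 0] with n hn
  have h1 : (n : ℝ) ≠ 0 := by exact_mod_cast hn.ne'
  field_simp
  ring

lemma two_lim : Tendsto (fun n : ℕ => (2 * (n : ℝ) + 1) / n) atTop (𝓝 2) := by
  have h1 : Tendsto (fun n : ℕ => 2 + 1 / (n : ℝ)) atTop (𝓝 (2 + 0)) :=
    tendsto_const_nhds.add (tendsto_const_div_atTop_nhds_zero_nat 1)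
  rw [add_zero] at h1
  refine h1.congr' ?_
  filter_upwards [eventually_gt_atTop 0] with n hn
  have h1 : (n : ℝ) ≠ 0 := by exact_mod_cast hn.ne'
  field_simp

lemma vr_lim (hF : Formula) (hm : S_mean) (hv : S_var) :
    Tendsto (fun n : ℕ => vr n / n) atTop (𝓝 (2 * (y0 - y0 ^ 2))) := by
  have h1 := ((two_lim.pow 2).mul hv).add (two_lim.mul ((al_lim hm).sub (be_lim hm hv)))
  rw [mul_zero, zero_add] at h1
  refine h1.congr' ?_
  filter_upwards [eventually_gt_atTop 0] with n hn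
  have h1 : (n : ℝ) ≠ 0 := by exact_mod_cast hn.ne'
  rw [vr_eq hF]
  field_simp

lemma y0_var : 0 < y0 - y0 ^ 2 := by
  have h1 := y0_pos
  have h2 := y0_lt
  nlinarith

lemma vr_pos (hF : Formula) (hm : S_mean) (hv : S_var) : ∀ᶠ n : ℕ in atTop, 0 < vr n := by
  have h1 := (vr_lim hF hm hv).eventually (lt_mem_nhds (show 0 < 2 * (y0 - y0 ^ 2) by
    linarith [y0_var]))
  filter_upwards [h1, eventually_gt_atTop 0] with n hn hn0
  have h2 : (0 : ℝ) < n := by exact_mod_cast hn0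
  rw [lt_div_iff₀ h2, zero_mul] at hn
  exact hn

/-- the tilting parameter -/
def th (s : ℝ) (n : ℕ) : ℝ := s / √(vr n)

lemma th_nonneg {s : ℝ} (hs : 0 ≤ s) (n : ℕ) : 0 ≤ th s n := div_nonneg hs (Real.sqrt_nonneg _)

lemma n_th_lim (hF : Formula) (hm : S_mean) (hv : S_var) (s : ℝ) :
    Tendsto (fun n : ℕ => n * th s n ^ 2) atTop (𝓝 (s ^ 2 / (2 * (y0 - y0 ^ 2)))) := by
  have h0 : 2 * (y0 - y0 ^ 2) ≠ 0 := by
    have := y0_var
    positivity
  have h1 := ((vr_lim hF hm hv).inv₀ h0).const_mul (s ^ 2)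
  rw [← div_eq_mul_inv] at h1
  refine h1.congr' ?_
  filter_upwards [eventually_gt_atTop 0, vr_pos hF hm hv] with n hn hp
  have h1 : (n : ℝ) ≠ 0 := by exact_mod_cast hn.ne'
  unfold th
  rw [div_pow, Real.sq_sqrt hp.le]
  field_simp

lemma th_lim (hF : Formula) (hm : S_mean) (hv : S_var) (s : ℝ) : Tendsto (th s) atTop (𝓝 0) := by
  have h1 : Tendsto (fun n : ℕ => (n : ℝ)⁻¹ * (n * th s n ^ 2)) atTop (𝓝 0) := by
    have := (tendsto_inv_atTop_nhds_zero_nat (𝕜 := ℝ)).mul (n_th_lim hF hm hv s)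
    rwa [zero_mul] at this
  have h2 : Tendsto (fun n => th s n ^ 2) atTop (𝓝 0) := by
    refine h1.congr' ?_
    filter_upwards [eventually_gt_atTop 0] with n hn
    have h1 : (n : ℝ) ≠ 0 := by exact_mod_cast hn.ne'
    field_simp
  have h3 := h2.sqrt
  rw [Real.sqrt_zero] at h3
  have h4 : Tendsto (fun n => |th s n|) atTop (𝓝 0) := by
    refine h3.congr fun n => ?_
    rw [Real.sqrt_sq_eq_abs]
  exact (tendsto_zero_iff_abs_tendsto_zero _).2 h4

lemma th_ne (hF : Formula) (hm : S_mean) (hv : S_var) {s : ℝ} (hs : 0 < s) :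
    Tendsto (th s) atTop (𝓝[≠] 0) := by
  rw [tendsto_nhdsWithin_iff]
  refine ⟨th_lim hF hm hv s, ?_⟩
  filter_upwards [vr_pos hF hm hv] with n hn
  have h1 : 0 < th s n := div_pos hs (Real.sqrt_pos.2 hn)
  exact h1.ne'

/-- the sequence of the transform variables -/
def tt (s : ℝ) (n : ℕ) : ℝ := Real.exp (th s n) - 1

lemma tt_nonneg {s : ℝ} (hs : 0 ≤ s) (n : ℕ) : 0 ≤ tt s n := by
  have h1 := Real.one_le_exp (th_nonneg hs n)
  unfold tt
  linarith

lemma tt_bound (hF : Formula) (hm : S_mean) (hv : S_var) {s : ℝ} (hs : 0 < s) :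
    ∃ K : ℝ, ∀ n : ℕ, √n * tt s n ≤ K := by
  have h1 : Tendsto (fun n : ℕ => √(n * th s n ^ 2) * (tt s n / th s n)) atTop
      (𝓝 (√(s ^ 2 / (2 * (y0 - y0 ^ 2))) * 1)) :=
    (n_th_lim hF hm hv s).sqrt.mul (expm_div.comp (th_ne hF hm hv hs))
  have h2 : Tendsto (fun n : ℕ => √n * tt s n) atTop
      (𝓝 (√(s ^ 2 / (2 * (y0 - y0 ^ 2))) * 1)) := by
    refine h1.congr' ?_
    filter_upwards [vr_pos hF hm hv] with n hn
    have h1 : 0 < th s n := div_pos hs (Real.sqrt_pos.2 hn)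
    rw [Real.sqrt_mul (Nat.cast_nonneg n), Real.sqrt_sq h1.le]
    field_simp
  obtain ⟨K, hK⟩ := h2.bddAbove_range
  exact ⟨K, fun n => hK ⟨n, rfl⟩⟩

/-- the moment generating function of the normalized variable -/
lemma mgf_lim (hF : Formula) (hl : ∀ (K : ℝ) (t : ℕ → ℝ), (∀ n, 0 ≤ t n) → (∀ n : ℕ, √n * t n ≤ K) →
    Tendsto (fun n : ℕ => TT n (t n) / (1 + t n * y0) ^ (2 * n + 1)) atTop (𝓝 1))
    (hm : S_mean) (hv : S_var) {s : ℝ} (hs : 0 < s) :
    Tendsto (fun n : ℕ => EE n (fun y => Real.exp (s * (((y : ℝ) - mn n) / √(vr n))))) atTop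
      (𝓝 (Real.exp (s ^ 2 / 2))) := by
  obtain ⟨K, hK⟩ := tt_bound hF hm hv hs
  have h1 := hl K (tt s) (tt_nonneg hs.le) hK
  have hm' := hm
  obtain ⟨C, hC⟩ := hm'
  -- the exponent
  have h2 : Tendsto (fun n : ℕ => -(th s n * ((2 * (n : ℝ) + 1) * (al n - y0)))) atTop (𝓝 0) := by
    have h3 : Tendsto (fun n : ℕ => |th s n| * (3 * C)) atTop (𝓝 0) := by
      have := ((tendsto_zero_iff_abs_tendsto_zero _).1 (th_lim hF hm hv s)).mul_const (3 * C)
      rwa [zero_mul] at this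
    refine squeeze_zero_norm' ?_ h3
    filter_upwards [eventually_gt_atTop 0] with n hn
    have h4 : (1 : ℝ) ≤ n := by exact_mod_cast hn
    rw [Real.norm_eq_abs, abs_neg, abs_mul]
    apply mul_le_mul_of_nonneg_left _ (abs_nonneg _)
    have h5 := hC n
    rw [abs_mul, abs_of_nonneg (by linarith : (0 : ℝ) ≤ n)] at h5
    rw [abs_mul, abs_of_nonneg (by linarith : (0 : ℝ) ≤ 2 * n + 1)]
    have h6 : 0 ≤ |al n - y0| := abs_nonneg _
    nlinarith
  have h3 : Tendsto (fun n : ℕ => (2 * (n : ℝ) + 1) *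
      (Real.log (1 + y0 * (Real.exp (th s n) - 1)) - y0 * th s n)) atTop (𝓝 (s ^ 2 / 2)) := by
    have h4 := (two_lim.mul (n_th_lim hF hm hv s)).mul ((h_lim y0_pos).comp (th_ne hF hm hv hs))
    have e1 : 2 * (s ^ 2 / (2 * (y0 - y0 ^ 2))) * ((y0 - y0 ^ 2) / 2) = s ^ 2 / 2 := by
      have h5 := y0_var
      generalize y0 - y0 ^ 2 = w at h5
      field_simp
    rw [e1] at h4
    refine h4.congr' ?_
    filter_upwards [eventually_gt_atTop 0, vr_pos hF hm hv] with n hn hp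
    have h5 : (n : ℝ) ≠ 0 := by exact_mod_cast hn.ne'
    have h6 : 0 < th s n := div_pos hs (Real.sqrt_pos.2 hp)
    simp only [Function.comp]
    field_simp
  have h4 := (Real.continuous_exp.tendsto _).comp (h2.add h3)
  rw [zero_add] at h4
  have h5 := h4.mul h1
  rw [mul_one] at h5
  refine h5.congr fun n => ?_
  have ht0 := tt_nonneg hs.le n
  have h6 : 0 < 1 + tt s n * y0 := by
    have := mul_nonneg ht0 y0_pos.le
    linarith
  have h7 : EE n (fun y => Real.exp (s * (((y : ℝ) - mn n) / √(vr n)))) =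
      Real.exp (-(th s n * mn n)) * TT n (tt s n) := by
    rw [← EE_pow hF, ← EE_mul]
    congr 1
    funext y
    have e2 : 1 + tt s n = Real.exp (th s n) := by unfold tt; ring
    rw [e2, ← Real.exp_nat_mul, ← Real.exp_add]
    congr 1
    unfold th
    ring
  rw [h7]
  simp only [Function.comp]
  have h8 : mn n = (2 * n + 1) * al n := EE_mean hF n
  have e3 : y0 * (Real.exp (th s n) - 1) = tt s n * y0 := by unfold tt; ring
  rw [e3, h8]
  have h9 : Real.exp (-(th s n * ((2 * (n : ℝ) + 1) * (al n - y0))) +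
      (2 * (n : ℝ) + 1) * (Real.log (1 + tt s n * y0) - y0 * th s n)) =
      Real.exp (-(th s n * ((2 * (n : ℝ) + 1) * al n))) * (1 + tt s n * y0) ^ (2 * n + 1) := by
    have h10 : (1 + tt s n * y0) ^ (2 * n + 1) =
        Real.exp ((2 * (n : ℝ) + 1) * Real.log (1 + tt s n * y0)) := by
      rw [show (2 * (n : ℝ) + 1) = ((2 * n + 1 : ℕ) : ℝ) by push_cast; ring, Real.exp_nat_mul,
        Real.exp_log h6]
    rw [h10, ← Real.exp_add]
    congr 1
    ring
  rw [h9]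
  have h11 : (1 + tt s n * y0) ^ (2 * n + 1) ≠ 0 := pow_ne_zero _ h6.ne'
  field_simp

end

end Pool.Agent.Q294.Md
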