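import Pool.Agent.Q294.Md.Asm2

/-! The law of the normalized variable. -/

set_option autoImplicit false

namespace Pool.Agent.Q294.Md

open Finset Filter Topology MeasureTheory ProbabilityTheory

noncomputable section

/-- the law of `Z` under the uniform law on a finite set -/
def law {ι : Type*} (Ω : Finset ι) (Z : ι → ℝ) : Measure ℝ :=
  (Ω.card : ENNReal)⁻¹ • ∑ x ∈ Ω, Measure.dirac (Z x)

lemma law_prob {ι : Type*} {Ω : Finset ι} (h : Ω.Nonempty) (Z : ι → ℝ) :
    IsProbabilityMeasure (law Ω Z) := by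
  constructor
  unfold law
  rw [Measure.smul_apply, Measure.finsetSum_apply]
  simp only [measure_univ, Finset.sum_const, nsmul_eq_mul, mul_one, smul_eq_mul]
  rw [ENNReal.inv_mul_cancel]
  · exact_mod_cast h.card_pos.ne'
  · exact ENNReal.natCast_ne_top _

lemma law_integral {ι : Type*} (Ω : Finset ι) (Z : ι → ℝ) (F : ℝ → ℝ) :
    ∫ x, F x ∂(law Ω Z) = (∑ x ∈ Ω, F (Z x)) / Ω.card := by
  unfold law
  rw [integral_smul_measure, integral_finsetSum_measure]
  · simp only [integral_dirac, smul_eq_mul, ENNReal.toReal_inv, ENNReal.toReal_natCast]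
    rw [div_eq_inv_mul]
  · intro i _
    exact integrable_dirac (by simp [enorm_lt_top])

lemma law_integrable {ι : Type*} {Ω : Finset ι} (h : Ω.Nonempty) (Z : ι → ℝ) (F : ℝ → ℝ) :
    Integrable F (law Ω Z) := by
  unfold law
  refine Integrable.smul_measure ?_ ?_
  · rw [integrable_finsetSum_measure]
    intro i _
    exact integrable_dirac (by simp [enorm_lt_top])
  · rw [ENNReal.inv_ne_top]
    exact_mod_cast h.card_pos.ne'

lemma law_Iic {ι : Type*} (Ω : Finset ι) (Z : ι → ℝ) (y : ℝ) :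
    (law Ω Z).real (Set.Iic y) = ((Ω.filter (fun x => Z x ≤ y)).card : ℝ) / Ω.card := by
  unfold law
  rw [measureReal_def, Measure.smul_apply, Measure.finsetSum_apply]
  have h1 : ∀ x ∈ Ω, Measure.dirac (Z x) (Set.Iic y) = if Z x ≤ y then 1 else 0 := by
    intro x _
    rw [Measure.dirac_apply' _ measurableSet_Iic]
    unfold Set.indicator
    simp
  rw [Finset.sum_congr rfl h1]
  simp only [smul_eq_mul, ENNReal.toReal_mul, ENNReal.toReal_inv, ENNReal.toReal_natCast]
  rw [Finset.sum_ite]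
  simp only [Finset.sum_const, nsmul_eq_mul, mul_one, mul_zero, add_zero, ENNReal.toReal_natCast]
  rw [div_eq_inv_mul]

/-- the meandric systems -/
def Om (n : ℕ) : Finset (Finset (ℕ × ℕ) × Finset (ℕ × ℕ)) := SS n ×ˢ SS n

/-- the number of common pairs -/
def YY (x : Finset (ℕ × ℕ) × Finset (ℕ × ℕ)) : ℕ := (x.1 ∩ x.2).card

lemma Om_card (n : ℕ) : ((Om n).card : ℝ) = ((SS n).card : ℝ) ^ 2 := by
  unfold Om
  rw [Finset.card_product]
  push_cast
  ring

lemma sum_Om (n : ℕ) (F : ℕ → ℝ) : (∑ x ∈ Om n, F (YY x)) / (Om n).card = EE n F := by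
  unfold EE
  rw [Om_card]
  unfold Om YY
  rw [Finset.sum_product]

theorem clt (hF : Formula) (hl : ∀ (K : ℝ) (t : ℕ → ℝ), (∀ n, 0 ≤ t n) → (∀ n : ℕ, √n * t n ≤ K) →
    Tendsto (fun n : ℕ => TT n (t n) / (1 + t n * y0) ^ (2 * n + 1)) atTop (𝓝 1))
    (hm : S_mean) (hv : S_var) (y : ℝ) :
    Tendsto (fun n : ℕ => (((Om n).filter (fun x => ((YY x : ℝ) - mn n) / √(vr n) ≤ y)).card : ℝ) /
      (Om n).card) atTop (𝓝 ((gaussianReal 0 1).real (Set.Iic y))) := by
  have hne : ∀ n, (Om n).Nonempty := by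
    intro n
    have h1 := card_sq_pos hF n
    rw [← Om_card] at h1
    rw [← Finset.card_pos]
    exact_mod_cast h1
  obtain ⟨μ, hμ⟩ : ∃ μ : ℕ → ProbabilityMeasure ℝ, ∀ n, (μ n : Measure ℝ) =
      law (Om n) (fun x => ((YY x : ℝ) - mn n) / √(vr n)) :=
    ⟨fun n => ⟨law (Om n) (fun x => ((YY x : ℝ) - mn n) / √(vr n)), law_prob (hne n) _⟩,
      fun _ => rfl⟩
  have h1 := Pool.Agent.Q273.WL.curtiss_cdf (μ := μ)
    (fun n s _ _ => by rw [hμ]; exact law_integrable (hne n) _ _)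
    (fun s hs _ => by
      have h2 := mgf_lim hF hl hm hv hs
      refine h2.congr fun n => ?_
      rw [hμ, law_integral, ← sum_Om])
    y
  refine h1.congr fun n => ?_
  rw [hμ, law_Iic]

end

end Pool.Agent.Q294.Md
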