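import Pool.Agent.Q294.Md.Stm

/-! Elementary facts on the sequences `f`, `g`, `b`, `q`. -/

set_option autoImplicit false

namespace Pool.Agent.Q294.Md

open Finset Filter Topology MeasureTheory ProbabilityTheory

noncomputable section

lemma cat_succ (n : ℕ) : ((n : ℝ) + 2) * catalan (n + 1) = 2 * (2 * n + 1) * catalan n := by
  have h1 := succ_mul_catalan_eq_centralBinom (n + 1)
  have h2 := succ_mul_catalan_eq_centralBinom n
  have h3 := Nat.succ_mul_centralBinom_succ n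
  have h4 : (n + 1) * ((n + 2) * catalan (n + 1)) = (n + 1) * (2 * (2 * n + 1) * catalan n) := by
    have : (n + 1 + 1) * catalan (n + 1) = (n + 2) * catalan (n + 1) := by ring
    rw [← this, h1, h3, ← h2]
    ring
  have h5 := Nat.eq_of_mul_eq_mul_left (Nat.succ_pos n) h4
  exact_mod_cast h5

lemma f_zero : f 0 = 1 := by simp [f]

lemma f_succ (n : ℕ) : f (n + 1) = f n * ((2 * n + 1) / (2 * (n + 2))) ^ 2 := by
  have h := cat_succ n
  have h2 : ((n : ℝ) + 2) ≠ 0 := by positivity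
  have h3 : (catalan (n + 1) : ℝ) = 2 * (2 * n + 1) * catalan n / (n + 2) := by
    rw [eq_div_iff h2, mul_comm]
    exact h
  unfold f
  rw [h3, pow_succ]
  field_simp
  ring

lemma f_pos (n : ℕ) : 0 < f n := by
  induction n with
  | zero => rw [f_zero]; norm_num
  | succ n ih => rw [f_succ]; positivity

lemma g_zero : g 0 = 1 := by simp [g, f_zero]

lemma g_pos (n : ℕ) : 0 < g n := by
  unfold g
  have := f_pos n
  positivity

lemma g_succ (n : ℕ) : g (n + 1) = g n * ((2 * n + 3) * (2 * n + 1) / (4 * (n + 2) ^ 2)) := by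
  unfold g
  rw [f_succ]
  push_cast
  field_simp
  ring

lemma g_succ_le (n : ℕ) : g (n + 1) ≤ g n := by
  rw [g_succ]
  have h1 : ((2 * n + 3) * (2 * n + 1) / (4 * (n + 2) ^ 2) : ℝ) ≤ 1 := by
    rw [div_le_one (by positivity)]
    nlinarith [(Nat.cast_nonneg n : (0 : ℝ) ≤ n)]
  have h2 := g_pos n
  nlinarith

lemma g_anti : Antitone g := antitone_nat_of_succ_le g_succ_le

/-- `(m+1)² g_m` -/
def hh (m : ℕ) : ℝ := (m + 1) ^ 2 * g m

lemma hh_zero : hh 0 = 1 := by simp [hh, g_zero]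

lemma hh_pos (m : ℕ) : 0 < hh m := by
  unfold hh
  have := g_pos m
  positivity

lemma hh_succ (n : ℕ) : hh (n + 1) = hh n * (1 - 1 / (4 * (n + 1) ^ 2)) := by
  unfold hh
  rw [g_succ]
  push_cast
  field_simp
  ring

lemma hh_succ_le (n : ℕ) : hh (n + 1) ≤ hh n := by
  rw [hh_succ]
  have h1 : (0 : ℝ) ≤ 1 / (4 * (n + 1) ^ 2) := by positivity
  have h2 := hh_pos n
  nlinarith

lemma hh_anti : Antitone hh := antitone_nat_of_succ_le hh_succ_le

lemma hh_le (n : ℕ) : hh n ≤ 1 := by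
  rw [← hh_zero]
  exact hh_anti (Nat.zero_le n)

lemma hh_ge' (n : ℕ) : 1 / 2 + 1 / (2 * ((n : ℝ) + 1)) ≤ hh n := by
  induction n with
  | zero => rw [hh_zero]; norm_num
  | succ n ih =>
    rw [hh_succ]
    have h0 : (0 : ℝ) ≤ n := Nat.cast_nonneg n
    have h1 : (0 : ℝ) ≤ 1 - 1 / (4 * (n + 1) ^ 2) := by
      rw [sub_nonneg, div_le_one (by positivity)]
      nlinarith
    have h2 : 1 / 2 + 1 / (2 * (((n + 1 : ℕ) : ℝ) + 1)) ≤
        (1 / 2 + 1 / (2 * ((n : ℝ) + 1))) * (1 - 1 / (4 * (n + 1) ^ 2)) := by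
      rw [← sub_nonneg]
      push_cast
      have h3 : (1 / 2 + 1 / (2 * ((n : ℝ) + 1))) * (1 - 1 / (4 * (n + 1) ^ 2)) -
          (1 / 2 + 1 / (2 * ((n : ℝ) + 1 + 1))) =
          (4 * (n + 1) ^ 2 - (n + 2) ^ 2) / (8 * (n + 1) ^ 3 * (n + 2)) := by
        field_simp
        ring
      rw [h3]
      apply div_nonneg
      · nlinarith
      · positivity
    exact h2.trans (mul_le_mul_of_nonneg_right ih h1)

lemma hh_ge (n : ℕ) : 1 / 2 ≤ hh n := by
  have h1 := hh_ge' n
  have h2 : (0 : ℝ) ≤ 1 / (2 * ((n : ℝ) + 1)) := by positivity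
  linarith

lemma g_eq (n : ℕ) : g n = hh n / (n + 1) ^ 2 := by
  unfold hh
  field_simp

lemma g_le (n : ℕ) : g n ≤ 1 / (n + 1) ^ 2 := by
  rw [g_eq]
  gcongr
  exact hh_le n

lemma g_ge (n : ℕ) : 1 / (2 * (n + 1) ^ 2) ≤ g n := by
  rw [g_eq]
  have h1 : (1 : ℝ) / (2 * (n + 1) ^ 2) = 1 / 2 / (n + 1) ^ 2 := by field_simp
  rw [h1]
  gcongr
  exact hh_ge n

lemma g_summable : Summable g := by
  have h1 : Summable fun n : ℕ => 1 / ((n : ℝ) + 1) ^ 2 := by
    have := (summable_nat_add_iff 1).2 (Real.summable_one_div_nat_pow.2 (show 1 < 2 by norm_num))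
    simpa using this
  exact Summable.of_nonneg_of_le (fun n => (g_pos n).le) g_le h1

lemma b_zero : b 0 = 0 := by simp [b]

lemma b_succ (n : ℕ) : b (n + 1) = f n / 16 := by simp [b]

lemma b_nonneg (j : ℕ) : 0 ≤ b j := by
  rcases j with _ | j
  · rw [b_zero]
  · rw [b_succ]
    exact div_nonneg (f_pos j).le (by norm_num)

lemma f_eq (n : ℕ) : f n = g n / (2 * n + 1) := by
  unfold g
  field_simp

/-- `j b_j ≤ g_{j-1} / 16` -/
lemma succ_mul_b (n : ℕ) : ((n : ℝ) + 1) * b (n + 1) ≤ g n / 16 := by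
  rw [b_succ]
  unfold g
  have h := f_pos n
  have h0 : (0 : ℝ) ≤ n := Nat.cast_nonneg n
  nlinarith

lemma mul_b_le (j : ℕ) : (j : ℝ) * b j ≤ 1 / (16 * j ^ 2) := by
  rcases j with _ | j
  · simp
  · have h1 := succ_mul_b j
    have h2 := g_le j
    push_cast
    have h3 : (1 : ℝ) / (16 * ((j : ℝ) + 1) ^ 2) = 1 / ((j : ℝ) + 1) ^ 2 / 16 := by field_simp
    rw [h3]
    linarith

lemma b_le (j : ℕ) : b j ≤ 1 / (16 * j ^ 3) := by
  rcases Nat.eq_zero_or_pos j with rfl | hj
  · simp [b_zero]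
  · have h1 := mul_b_le j
    have h2 : (0 : ℝ) < j := by exact_mod_cast hj
    rw [le_div_iff₀ (by positivity)]
    rw [le_div_iff₀ (by positivity)] at h1
    calc b j * (16 * (j : ℝ) ^ 3) = (j : ℝ) * b j * (16 * j ^ 2) := by ring
      _ ≤ 1 := h1

lemma mul_b_summable : Summable fun j : ℕ => (j : ℝ) * b j := by
  have h1 : Summable fun n : ℕ => (((n + 1 : ℕ) : ℝ)) * b (n + 1) := by
    refine Summable.of_nonneg_of_le (fun n => mul_nonneg (by positivity) (b_nonneg _)) (fun n => ?_)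
      (g_summable.div_const 16)
    push_cast
    exact succ_mul_b n
  exact (summable_nat_add_iff 1).1 h1

lemma b_summable : Summable b := by
  refine Summable.of_nonneg_of_le b_nonneg (fun j => ?_) mul_b_summable
  rcases j with _ | j
  · simp [b_zero]
  · have h1 := b_nonneg (j + 1)
    have h2 : (1 : ℝ) ≤ ((j + 1 : ℕ) : ℝ) := by
      push_cast
      linarith [(Nat.cast_nonneg j : (0 : ℝ) ≤ j)]
    nlinarith

lemma y0_pos : 0 < y0 := by
  have h1 : b 1 ≤ y0 := b_summable.le_tsum 1 fun j _ => b_nonneg j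
  have h2 : b 1 = 1 / 16 := by
    rw [show (1 : ℕ) = 0 + 1 from rfl, b_succ, f_zero]
  linarith

lemma y0_lt : y0 < 1 := by
  -- `y0 ≤ Σ g_n / 16 ≤ Σ 1/(16 (n+1)²) ≤ 2/16`
  have h1 : y0 = ∑' n : ℕ, b (n + 1) := by
    unfold y0
    rw [b_summable.tsum_eq_zero_add, b_zero, zero_add]
  have h2 : ∀ n : ℕ, b (n + 1) ≤ 1 / 16 * (1 / ((n : ℝ) + 1) ^ 2) := by
    intro n
    have h3 := b_le (n + 1)
    push_cast at h3
    refine h3.trans ?_
    rw [← one_div_mul_one_div]
    gcongr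
    · linarith [(Nat.cast_nonneg n : (0 : ℝ) ≤ n)]
    · norm_num
  have h4 : Summable fun n : ℕ => 1 / ((n : ℝ) + 1) ^ 2 := by
    have := (summable_nat_add_iff 1).2 (Real.summable_one_div_nat_pow.2 (show 1 < 2 by norm_num))
    simpa using this
  have h5 : ∑' n : ℕ, b (n + 1) ≤ ∑' n : ℕ, 1 / 16 * (1 / ((n : ℝ) + 1) ^ 2) :=
    ((summable_nat_add_iff 1).2 b_summable).tsum_le_tsum h2 (h4.mul_left _)
  have h6 : ∑' n : ℕ, 1 / ((n : ℝ) + 1) ^ 2 = Real.pi ^ 2 / 6 := by
    have h7 := hasSum_zeta_two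
    have h8 := h7.summable.tsum_eq_zero_add
    rw [h7.tsum_eq] at h8
    simp only [Nat.cast_zero, ne_eq, OfNat.ofNat_ne_zero, not_false_eq_true, zero_pow, div_zero,
      zero_add, Nat.cast_add, Nat.cast_one] at h8
    exact h8.symm
  rw [tsum_mul_left, h6, ← h1] at h5
  have h7 := Real.pi_lt_four
  have h8 := Real.pi_pos
  nlinarith

/-! ### The numbers `q` -/

lemma q_zero_left (t : ℝ) (j : ℕ) : q t 0 j = if j = 0 then 1 else 0 := by
  unfold q
  rw [pow_zero, PowerSeries.coeff_one]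

lemma coeff_phi (t : ℝ) (j : ℕ) :
    PowerSeries.coeff j (1 + PowerSeries.C t * bb) = (if j = 0 then 1 else 0) + t * b j := by
  rw [map_add, PowerSeries.coeff_one, PowerSeries.coeff_C_mul]
  unfold bb
  rw [PowerSeries.coeff_mk]

lemma q_succ (t : ℝ) (N j : ℕ) : q t (N + 1) j =
    ∑ p ∈ Finset.HasAntidiagonal.antidiagonal j, ((if p.1 = 0 then 1 else 0) + t * b p.1) * q t N p.2 := by
  unfold q
  rw [pow_succ', PowerSeries.coeff_mul]
  refine Finset.sum_congr rfl fun p _ => ?_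
  rw [coeff_phi]

lemma q_nonneg {t : ℝ} (ht : 0 ≤ t) (N j : ℕ) : 0 ≤ q t N j := by
  induction N generalizing j with
  | zero => rw [q_zero_left]; split_ifs <;> norm_num
  | succ N ih =>
    rw [q_succ]
    refine Finset.sum_nonneg fun p _ => mul_nonneg ?_ (ih _)
    have := mul_nonneg ht (b_nonneg p.1)
    split_ifs <;> linarith

lemma hasSum_phi (t : ℝ) : HasSum (fun j : ℕ => (if j = 0 then 1 else 0) + t * b j) (1 + t * y0) := by
  refine HasSum.add ?_ (b_summable.hasSum.mul_left t)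
  exact hasSum_ite_eq 0 (1 : ℝ)

lemma hasSum_q {t : ℝ} (ht : 0 ≤ t) (N : ℕ) : HasSum (q t N) ((1 + t * y0) ^ N) := by
  induction N with
  | zero =>
    have h0 : q t 0 = fun j => if j = 0 then (1 : ℝ) else 0 := funext (q_zero_left t)
    rw [h0, pow_zero]
    exact hasSum_ite_eq 0 (1 : ℝ)
  | succ N ih =>
    have h1 := (hasSum_phi t)
    have h5 := fun n => q_succ t N n
    obtain ⟨c, hc⟩ : ∃ c : ℕ → ℝ, c = fun j => (if j = 0 then (1 : ℝ) else 0) + t * b j := ⟨_, rfl⟩
    have hc' : ∀ j, (if j = 0 then (1 : ℝ) else 0) + t * b j = c j := fun j => by rw [hc]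
    have h0 : ∀ j : ℕ, 0 ≤ c j := by
      intro j
      rw [← hc']
      have := mul_nonneg ht (b_nonneg j)
      split_ifs <;> linarith
    simp only [hc'] at h1 h5
    have h2 : Summable fun x : ℕ × ℕ => c x.1 * q t N x.2 :=
      h1.summable.mul_of_nonneg ih.summable h0 (q_nonneg ht N)
    have h3 := h1.summable.tsum_mul_tsum_eq_tsum_sum_antidiagonal ih.summable h2
    have h4 : Summable fun n => ∑ p ∈ Finset.HasAntidiagonal.antidiagonal n, c p.1 * q t N p.2 :=
      summable_sum_mul_antidiagonal_of_summable_mul h2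
    rw [funext h5, pow_succ']
    rw [h1.tsum_eq, ih.tsum_eq] at h3
    rw [h3]
    exact h4.hasSum

lemma sum_q_le {t : ℝ} (ht : 0 ≤ t) (N : ℕ) (s : Finset ℕ) : ∑ j ∈ s, q t N j ≤ (1 + t * y0) ^ N :=
  sum_le_hasSum s (fun j _ => q_nonneg ht N j) (hasSum_q ht N)

/-- The identity `j q_{N+1}(j) = (N+1) t Σ_i i b_i q_N(j-i)`. -/
lemma mul_q_succ (t : ℝ) (N j : ℕ) : (j : ℝ) * q t (N + 1) j =
    (N + 1) * t * ∑ p ∈ Finset.HasAntidiagonal.antidiagonal j, ((p.1 : ℝ) * b p.1) * q t N p.2 := by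
  rcases j with _ | j
  · simp
  · have h1 : PowerSeries.coeff j (PowerSeries.derivative ℝ ((1 + PowerSeries.C t * bb) ^ (N + 1))) =
        q t (N + 1) (j + 1) * (j + 1) := by
      rw [PowerSeries.coeff_derivative]
      rfl
    have h2 : PowerSeries.derivative ℝ ((1 + PowerSeries.C t * bb) ^ (N + 1)) =
        PowerSeries.C ((N + 1 : ℝ) * t) * (PowerSeries.derivative ℝ bb *
          (1 + PowerSeries.C t * bb) ^ N) := by
      have h3 := (PowerSeries.derivative ℝ).leibniz_pow (1 + PowerSeries.C t * bb) (N + 1)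
      have h4 : (PowerSeries.derivative ℝ) (1 + PowerSeries.C t * bb) =
          PowerSeries.C t * PowerSeries.derivative ℝ bb := by
        rw [map_add, Derivation.leibniz]
        simp [PowerSeries.derivative_C]
      rw [h4] at h3
      rw [h3]
      simp only [Nat.add_sub_cancel, smul_eq_mul, nsmul_eq_mul]
      rw [map_mul]
      have h5 : ((N + 1 : ℕ) : PowerSeries ℝ) = PowerSeries.C ((N : ℝ) + 1) := by
        rw [map_add, map_one]
        push_cast
        rfl
      rw [h5]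
      ring
    rw [h2, PowerSeries.coeff_C_mul, PowerSeries.coeff_mul] at h1
    rw [Finset.Nat.antidiagonal_succ, Finset.sum_cons, Finset.sum_map]
    simp only [CharP.cast_eq_zero, zero_mul, zero_add, Function.Embedding.coe_prodMap,
      Function.Embedding.coeFn_mk, Prod.map_fst, Prod.map_snd, Function.Embedding.refl_apply]
    push_cast
    have h6 : ∑ p ∈ Finset.HasAntidiagonal.antidiagonal j,
        PowerSeries.coeff p.1 (PowerSeries.derivative ℝ bb) *
          PowerSeries.coeff p.2 ((1 + PowerSeries.C t * bb) ^ N) =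
        ∑ p ∈ Finset.HasAntidiagonal.antidiagonal j, ((p.1 : ℝ) + 1) * b (p.1 + 1) * q t N p.2 := by
      refine Finset.sum_congr rfl fun p _ => ?_
      rw [PowerSeries.coeff_derivative]
      unfold bb
      rw [PowerSeries.coeff_mk]
      unfold q bb
      ring
    rw [h6] at h1
    simp only [Nat.succ_eq_add_one]
    rw [mul_comm, ← h1]

end

end Pool.Agent.Q294.Md
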