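import Mathlib

/-!
Central limit theorem for the number of two-point components of a uniform meandric system:
definitions and statements of the steps.
-/

set_option autoImplicit false

namespace Pool.Agent.Q294.Md

open Finset Filter Topology MeasureTheory ProbabilityTheory

noncomputable section

/-- `μ` is a non-crossing perfect matching of the finite set `P` of points of the line, given as the
set of its pairs `(i, j)`, `i < j`. -/
structure IsM (P : Finset ℕ) (μ : Finset (ℕ × ℕ)) : Prop where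
  lt : ∀ p ∈ μ, p.1 < p.2
  mem : ∀ p ∈ μ, p.1 ∈ P ∧ p.2 ∈ P
  cover : ∀ x ∈ P, ∃! p, p ∈ μ ∧ (x = p.1 ∨ x = p.2)
  nc : ∀ p ∈ μ, ∀ q ∈ μ, ¬ (p.1 < q.1 ∧ q.1 < p.2 ∧ p.2 < q.2)

open Classical in
/-- the set of the non-crossing perfect matchings of `P` -/
def NC (P : Finset ℕ) : Finset (Finset (ℕ × ℕ)) := ((P ×ˢ P).powerset).filter (IsM P)

/-- The weighted number of pairs of non-crossing perfect matchings of `P`: every common pair with
left end point `≥ z` has weight `1 + t`. -/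
def V (P : Finset ℕ) (z : ℕ) (t : ℝ) : ℝ :=
  ∑ μ ∈ NC P, ∑ ν ∈ NC P, (1 + t) ^ ((μ ∩ ν).filter (fun p => z ≤ p.1)).card

/-- the square of the number of non-crossing perfect matchings of `q` points -/
def cat2 (q : ℕ) : ℝ := if Even q then (catalan (q / 2) : ℝ) ^ 2 else 0

/-- the generating function of the number of pairs of matchings, shifted by one -/
def yy : PowerSeries ℝ := PowerSeries.mk fun k => if k = 0 then 0 else (catalan (k - 1) : ℝ) ^ 2

/-! ### Combinatorics -/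

/-- JOB A1 (first half): no common pair is marked. -/
def S_base : Prop := ∀ (P : Finset ℕ) (z : ℕ) (t : ℝ), (∀ x ∈ P, x < z) → V P z t = cat2 P.card

/-- JOB A1 (second half): the recursion at the first point `z₀` of `P` which is at least `z`. -/
def S_step : Prop := ∀ (P : Finset ℕ) (z z₀ : ℕ) (t : ℝ), z₀ ∈ P → z ≤ z₀ →
  (∀ x ∈ P, z ≤ x → z₀ ≤ x) →
  V P z t = V P (z₀ + 1) t + t * ∑ b ∈ P.filter (fun b => z₀ < b),
    V (P.filter (fun x => z₀ < x ∧ x < b)) z₀ t * V (P.filter (fun x => x < z₀ ∨ b < x)) z₀ t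

/-- JOB A2: the exact formula. -/
def S_comb : Prop := S_base → S_step → ∀ (n : ℕ) (t : ℝ),
  V (Icc 1 (2 * n)) 0 t = ∑ m ∈ range (n + 1), (catalan m : ℝ) ^ 2 * ((2 * m + 1) / (2 * n + 1)) *
    PowerSeries.coeff (n - m) ((1 + PowerSeries.C t * yy) ^ (2 * n + 1))

/-! ### The sequences -/

/-- `C_m² / 16^m` -/
def f (m : ℕ) : ℝ := (catalan m : ℝ) ^ 2 / 16 ^ m

/-- `(2m+1) C_m² / 16^m` -/
def g (m : ℕ) : ℝ := (2 * m + 1) * f m

/-- `C_{j-1}² / 16^j` for `j ≥ 1` -/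
def b (j : ℕ) : ℝ := if j = 0 then 0 else f (j - 1) / 16

/-- the generating function of `b` -/
def bb : PowerSeries ℝ := PowerSeries.mk b

/-- the coefficients of `(1 + t b(w))^N` -/
def q (t : ℝ) (N j : ℕ) : ℝ := PowerSeries.coeff j ((1 + PowerSeries.C t * bb) ^ N)

/-- the sum of `b` -/
def y0 : ℝ := ∑' j, b j

/-- `b * b` -/
def b2 (j : ℕ) : ℝ := ∑ p ∈ Finset.HasAntidiagonal.antidiagonal j, b p.1 * b p.2

/-! ### Analysis -/

/-- JOB C1: the local bound. -/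
def S_local : Prop := ∀ K : ℝ, ∀ ε : ℝ, 0 < ε → ∀ r : ℕ, r ≤ 5 → ∃ C : ℝ, ∀ (n N j : ℕ) (t : ℝ),
  1 ≤ n → N ≤ 2 * n + 1 → 0 ≤ t → √n * t ≤ K → ε * n ≤ j →
    q t N j ≤ C * (1 + t * y0) ^ N * (√n)⁻¹ ^ r

/-- JOB C2: the limit of the transform. -/
def S_limit : Prop := S_local → ∀ (K : ℝ) (t : ℕ → ℝ), (∀ n, 0 ≤ t n) → (∀ n : ℕ, √n * t n ≤ K) →
  Tendsto (fun n : ℕ => (∑ j ∈ range (n + 1), g (n - j) / g n * q (t n) (2 * n + 1) j) /
    (1 + t n * y0) ^ (2 * n + 1)) atTop (𝓝 1)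

/-- `Σ_j g(n-j)/g(n) b_j` -/
def al (n : ℕ) : ℝ := ∑ j ∈ range (n + 1), g (n - j) / g n * b j

/-- `Σ_j g(n-j)/g(n) (b*b)_j` -/
def be (n : ℕ) : ℝ := ∑ j ∈ range (n + 1), g (n - j) / g n * b2 j

/-- JOB D: mean and variance. -/
def S_mean : Prop := ∃ C : ℝ, ∀ n : ℕ, |n * (al n - y0)| ≤ C

def S_var : Prop := Tendsto (fun n : ℕ => n * (be n - al n ^ 2)) atTop (𝓝 0)

end

end Pool.Agent.Q294.Md
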