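import Pool.Agent.Q294.Md.Base

/-! Weighted sums `n (Σ_j g(n-j)/g(n) x_j - Σ_j x_j)`. -/

set_option autoImplicit false

namespace Pool.Agent.Q294.Md

open Finset Filter Topology MeasureTheory ProbabilityTheory

noncomputable section

/-- `hh` decreases slowly -/
lemma hh_diff (m j : ℕ) : hh m - hh (m + j) ≤ j / (4 * ((m : ℝ) + 1) ^ 2) := by
  induction j with
  | zero => simp
  | succ j ih =>
    have h1 : hh (m + (j + 1)) = hh (m + j) * (1 - 1 / (4 * (((m + j : ℕ) : ℝ) + 1) ^ 2)) := by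
      rw [← add_assoc, hh_succ]
    rw [h1]
    have h2 := hh_le (m + j)
    have h2' := hh_pos (m + j)
    have h3 : (1 : ℝ) / (4 * (((m + j : ℕ) : ℝ) + 1) ^ 2) ≤ 1 / (4 * ((m : ℝ) + 1) ^ 2) := by
      apply one_div_le_one_div_of_le (by positivity)
      push_cast
      have : (0 : ℝ) ≤ j := Nat.cast_nonneg j
      have : (0 : ℝ) ≤ m := Nat.cast_nonneg m
      gcongr
      linarith
    have h4 : hh (m + j) * (1 / (4 * (((m + j : ℕ) : ℝ) + 1) ^ 2)) ≤ 1 * (1 / (4 * ((m : ℝ) + 1) ^ 2)) :=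
      mul_le_mul h2 h3 (by positivity) zero_le_one
    have h5 : (((j + 1 : ℕ) : ℝ)) / (4 * ((m : ℝ) + 1) ^ 2) =
        j / (4 * ((m : ℝ) + 1) ^ 2) + 1 / (4 * ((m : ℝ) + 1) ^ 2) := by
      push_cast
      ring
    rw [h5]
    linarith

/-- the ratio of the weights -/
def ps (n j : ℕ) : ℝ := g (n - j) / g n

lemma ps_eq (m j : ℕ) : ps (m + j) j = hh m / hh (m + j) * (((m : ℝ) + j + 1) / (m + 1)) ^ 2 := by
  unfold ps
  rw [Nat.add_sub_cancel, g_eq, g_eq]
  have h1 := hh_pos (m + j)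
  push_cast
  have h2 : ((m : ℝ) + j + 1) ≠ 0 := by positivity
  field_simp

lemma ps_ge {n j : ℕ} : 1 ≤ ps n j := by
  unfold ps
  rw [one_le_div (g_pos n)]
  exact g_anti (Nat.sub_le n j)

/-- the two factors -/
lemma ps_split (m j : ℕ) : ps (m + j) j - 1 =
    (hh m - hh (m + j)) / hh (m + j) * (((m : ℝ) + j + 1) / (m + 1)) ^ 2 +
      j * (2 * (m + 1) + j) / (m + 1) ^ 2 := by
  rw [ps_eq]
  have h1 := hh_pos (m + j)
  field_simp
  ring

lemma first_le {m j : ℕ} (hj : j ≤ m) : (hh m - hh (m + j)) / hh (m + j) *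
    (((m : ℝ) + j + 1) / (m + 1)) ^ 2 ≤ 2 * j / (m + 1) ^ 2 := by
  have h1 := hh_diff m j
  have h2 := hh_ge (m + j)
  have h0 : 0 ≤ hh m - hh (m + j) := by
    have := hh_anti (Nat.le_add_right m j)
    linarith
  have h3 : (hh m - hh (m + j)) / hh (m + j) ≤ j / (2 * ((m : ℝ) + 1) ^ 2) := by
    rw [div_le_iff₀ (by linarith)]
    have h4 : (j : ℝ) / (4 * ((m : ℝ) + 1) ^ 2) = j / (2 * ((m : ℝ) + 1) ^ 2) * (1 / 2) := by
      field_simp
      ring
    rw [h4] at h1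
    have h5 : (0 : ℝ) ≤ j / (2 * ((m : ℝ) + 1) ^ 2) := by positivity
    nlinarith
  have h4 : (((m : ℝ) + j + 1) / (m + 1)) ^ 2 ≤ 4 := by
    have h5 : ((m : ℝ) + j + 1) / (m + 1) ≤ 2 := by
      rw [div_le_iff₀ (by positivity)]
      have : (j : ℝ) ≤ m := by exact_mod_cast hj
      linarith
    have h6 : (0 : ℝ) ≤ ((m : ℝ) + j + 1) / (m + 1) := by positivity
    nlinarith
  have h5 : (hh m - hh (m + j)) / hh (m + j) * (((m : ℝ) + j + 1) / (m + 1)) ^ 2 ≤
      j / (2 * ((m : ℝ) + 1) ^ 2) * 4 :=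
    mul_le_mul h3 h4 (by positivity) (by positivity)
  refine h5.trans (le_of_eq ?_)
  field_simp
  ring

lemma ps_sub_le {n j : ℕ} (hj : 2 * j ≤ n) : (n : ℝ) * (ps n j - 1) ≤ 10 * j := by
  obtain ⟨m, rfl⟩ : ∃ m, n = m + j := ⟨n - j, by omega⟩
  have hjm : j ≤ m := by omega
  rw [ps_split]
  have h1 := first_le hjm
  have hj' : (j : ℝ) ≤ m := by exact_mod_cast hjm
  have h0 : (0 : ℝ) ≤ j := Nat.cast_nonneg j
  have h2 : (j : ℝ) * (2 * (m + 1) + j) / (m + 1) ^ 2 ≤ 3 * j / (m + 1) := by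
    rw [div_le_div_iff₀ (by positivity) (by positivity)]
    have h3 : (j : ℝ) * (2 * (m + 1) + j) ≤ 3 * j * (m + 1) := by nlinarith
    have h4 : (0 : ℝ) ≤ m + 1 := by positivity
    calc (j : ℝ) * (2 * (m + 1) + j) * (m + 1) ≤ 3 * j * (m + 1) * (m + 1) :=
          mul_le_mul_of_nonneg_right h3 h4
      _ = 3 * j * (m + 1) ^ 2 := by ring
  have h3 : (2 : ℝ) * j / (m + 1) ^ 2 ≤ 2 * j / (m + 1) := by
    apply div_le_div_of_nonneg_left (by positivity) (by positivity)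
    nlinarith [(Nat.cast_nonneg m : (0 : ℝ) ≤ m)]
  have h4 : (hh m - hh (m + j)) / hh (m + j) * (((m : ℝ) + j + 1) / (m + 1)) ^ 2 +
      j * (2 * (m + 1) + j) / (m + 1) ^ 2 ≤ 5 * j / (m + 1) := by
    have h5 : (5 : ℝ) * j / (m + 1) = 2 * j / (m + 1) + 3 * j / (m + 1) := by ring
    rw [h5]
    linarith
  have h5 : ((m + j : ℕ) : ℝ) ≤ 2 * (m + 1) := by
    push_cast
    linarith
  calc ((m + j : ℕ) : ℝ) * _ ≤ ((m + j : ℕ) : ℝ) * (5 * j / (m + 1)) :=
        mul_le_mul_of_nonneg_left h4 (by positivity)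
    _ ≤ 2 * (m + 1) * (5 * j / (m + 1)) := mul_le_mul_of_nonneg_right h5 (by positivity)
    _ = 10 * j := by field_simp; ring

/-- the pointwise limit -/
lemma ps_lim (j : ℕ) : Tendsto (fun n : ℕ => (n : ℝ) * (ps n j - 1)) atTop (𝓝 (2 * j)) := by
  rw [← tendsto_add_atTop_iff_nat j]
  have e1 : ∀ m : ℕ, ((m + j : ℕ) : ℝ) * (ps (m + j) j - 1) =
      ((m + j : ℕ) : ℝ) * ((hh m - hh (m + j)) / hh (m + j) * (((m : ℝ) + j + 1) / (m + 1)) ^ 2) +
        j * (1 + ((j : ℝ) - 1) * (1 / ((m : ℝ) + 1))) * (2 + j * (1 / ((m : ℝ) + 1))) := by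
    intro m
    rw [ps_split]
    push_cast
    have h1 : (0 : ℝ) < m + 1 := by positivity
    have h2 : ((m : ℝ) + j) * (j * (2 * (m + 1) + j) / (m + 1) ^ 2) =
        j * (1 + ((j : ℝ) - 1) * (1 / ((m : ℝ) + 1))) * (2 + j * (1 / ((m : ℝ) + 1))) := by
      field_simp
      ring
    rw [mul_add, h2]
  simp only [e1]
  have h0 := tendsto_one_div_add_atTop_nhds_zero_nat (𝕜 := ℝ)
  have h1 : Tendsto (fun m : ℕ => (j : ℝ) * (1 + ((j : ℝ) - 1) * (1 / ((m : ℝ) + 1))) *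
      (2 + j * (1 / ((m : ℝ) + 1)))) atTop (𝓝 ((j : ℝ) * (1 + ((j : ℝ) - 1) * 0) * (2 + j * 0))) :=
    (((h0.const_mul _).const_add 1).const_mul _).mul ((h0.const_mul _).const_add 2)
  have h2 : Tendsto (fun m : ℕ => ((m + j : ℕ) : ℝ) *
      ((hh m - hh (m + j)) / hh (m + j) * (((m : ℝ) + j + 1) / (m + 1)) ^ 2)) atTop (𝓝 0) := by
    have h3 : Tendsto (fun m : ℕ => 4 * (j : ℝ) * (1 / ((m : ℝ) + 1))) atTop (𝓝 (4 * j * 0)) :=
      h0.const_mul _
    rw [mul_zero] at h3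
    refine squeeze_zero' (Eventually.of_forall fun m => ?_) ?_ h3
    · have h4 : 0 ≤ hh m - hh (m + j) := by
        have := hh_anti (Nat.le_add_right m j)
        linarith
      have h5 := hh_pos (m + j)
      positivity
    · filter_upwards [eventually_ge_atTop j] with m hm
      have h4 := first_le hm
      have hj' : (j : ℝ) ≤ m := by exact_mod_cast hm
      calc ((m + j : ℕ) : ℝ) * _ ≤ ((m + j : ℕ) : ℝ) * (2 * j / (m + 1) ^ 2) :=
            mul_le_mul_of_nonneg_left h4 (by positivity)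
        _ ≤ (2 * (m + 1)) * (2 * j / (m + 1) ^ 2) := by
            apply mul_le_mul_of_nonneg_right _ (by positivity)
            push_cast
            linarith
        _ = 4 * j * (1 / (m + 1)) := by field_simp; ring
  have h3 := h2.add h1
  have e2 : (0 : ℝ) + j * (1 + ((j : ℝ) - 1) * 0) * (2 + j * 0) = 2 * j := by ring
  rwa [e2] at h3

/-- the sum of the ratios -/
lemma sum_ps (n : ℕ) : ∑ j ∈ range (n + 1), ps n j ≤ 2 * ((n : ℝ) + 1) ^ 2 * ∑' i, g i := by
  have h1 : ∑ j ∈ range (n + 1), ps n j = (∑ j ∈ range (n + 1), g j) / g n := by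
    unfold ps
    rw [← Finset.sum_div]
    congr 1
    exact Finset.sum_flip (fun i => g i)
  have h2 : ∑ j ∈ range (n + 1), g j ≤ ∑' i, g i := g_summable.sum_le_tsum _ fun i _ => (g_pos i).le
  have h3 := g_ge n
  rw [h1, div_le_iff₀ (g_pos n)]
  have h4 : 0 ≤ ∑' i, g i := tsum_nonneg fun i => (g_pos i).le
  have h5 : 1 ≤ 2 * ((n : ℝ) + 1) ^ 2 * g n := by
    rw [div_le_iff₀ (by positivity)] at h3
    linarith
  calc ∑ j ∈ range (n + 1), g j ≤ ∑' i, g i := h2
    _ = 1 * ∑' i, g i := (one_mul _).symm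
    _ ≤ (2 * ((n : ℝ) + 1) ^ 2 * g n) * ∑' i, g i := mul_le_mul_of_nonneg_right h5 h4
    _ = _ := by ring

/-- the weighted difference -/
def Sx (x : ℕ → ℝ) (n : ℕ) : ℝ := n * (∑ j ∈ range (n + 1), ps n j * x j - ∑' j, x j)

/-- the head -/
def hd (x : ℕ → ℝ) (n : ℕ) : ℝ :=
  ∑ j ∈ (range (n + 1)).filter (fun j => 2 * j ≤ n), n * (ps n j - 1) * x j

lemma Sx_eq {x : ℕ → ℝ} (hx : Summable x) (n : ℕ) : Sx x n = hd x n +
    (∑ j ∈ (range (n + 1)).filter (fun j => ¬ 2 * j ≤ n), n * (ps n j - 1) * x j -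
      n * ∑' j, x (j + (n + 1))) := by
  have h1 := hx.sum_add_tsum_nat_add (n + 1)
  unfold Sx hd
  rw [← h1, ← add_sub_assoc, Finset.sum_filter_add_sum_filter_not]
  have h2 : ∑ j ∈ range (n + 1), (n : ℝ) * (ps n j - 1) * x j =
      n * ∑ j ∈ range (n + 1), ps n j * x j - n * ∑ j ∈ range (n + 1), x j := by
    rw [Finset.mul_sum, Finset.mul_sum, ← Finset.sum_sub_distrib]
    refine Finset.sum_congr rfl fun j _ => ?_
    ring
  rw [h2]
  ring

/-- the rest -/
lemma tail_le : ∃ K : ℝ, 0 ≤ K ∧ ∀ (x : ℕ → ℝ) (n : ℕ) (δ : ℝ), Summable x → 0 ≤ δ →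
    (∀ j, n < 2 * j → |x j| ≤ δ / ((j : ℝ) + 1) ^ 3) →
    |∑ j ∈ (range (n + 1)).filter (fun j => ¬ 2 * j ≤ n), n * (ps n j - 1) * x j -
      n * ∑' j, x (j + (n + 1))| ≤ K * δ := by
  have hs2 : Summable fun j : ℕ => 1 / ((j : ℝ) + 1) ^ 2 := by
    have := (summable_nat_add_iff 1).2 (Real.summable_one_div_nat_pow.2 (show 1 < 2 by norm_num))
    simpa using this
  refine ⟨16 * (∑' i, g i) + ∑' j : ℕ, 1 / ((j : ℝ) + 1) ^ 2, ?_, ?_⟩
  · have h1 : 0 ≤ ∑' i, g i := tsum_nonneg fun i => (g_pos i).le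
    have h2 : 0 ≤ ∑' j : ℕ, 1 / ((j : ℝ) + 1) ^ 2 := tsum_nonneg fun j => by positivity
    positivity
  intro x n δ hx hδ hb
  have hG : 0 ≤ ∑' i, g i := tsum_nonneg fun i => (g_pos i).le
  have h1 : |∑ j ∈ (range (n + 1)).filter (fun j => ¬ 2 * j ≤ n), n * (ps n j - 1) * x j| ≤
      16 * (∑' i, g i) * δ := by
    refine (Finset.abs_sum_le_sum_abs _ _).trans ?_
    have h2 : ∀ j ∈ (range (n + 1)).filter (fun j => ¬ 2 * j ≤ n),
        |n * (ps n j - 1) * x j| ≤ ps n j * (n * (8 * δ / ((n : ℝ) + 1) ^ 3)) := by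
      intro j hj
      rw [mem_filter, mem_range] at hj
      have h3 := hb j (by omega)
      have h4 : 0 ≤ ps n j - 1 := by linarith [ps_ge (n := n) (j := j)]
      have h5 : ps n j - 1 ≤ ps n j := by linarith
      have h6 : |x j| ≤ 8 * δ / ((n : ℝ) + 1) ^ 3 := by
        refine h3.trans ?_
        have h7 : ((n : ℝ) + 1) / 2 ≤ j + 1 := by
          have : (n : ℝ) < 2 * j := by exact_mod_cast (show n < 2 * j by omega)
          linarith
        have h8 : (((n : ℝ) + 1) / 2) ^ 3 ≤ ((j : ℝ) + 1) ^ 3 := by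
          gcongr
        calc δ / ((j : ℝ) + 1) ^ 3 ≤ δ / (((n : ℝ) + 1) / 2) ^ 3 :=
              div_le_div_of_nonneg_left hδ (by positivity) h8
          _ = 8 * δ / ((n : ℝ) + 1) ^ 3 := by
              field_simp
              ring
      rw [abs_mul, abs_mul, abs_of_nonneg h4, abs_of_nonneg (Nat.cast_nonneg n : (0 : ℝ) ≤ n)]
      calc (n : ℝ) * (ps n j - 1) * |x j| ≤ n * ps n j * (8 * δ / ((n : ℝ) + 1) ^ 3) := by
            apply mul_le_mul _ h6 (abs_nonneg _) _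
            · exact mul_le_mul_of_nonneg_left h5 (Nat.cast_nonneg n)
            · exact mul_nonneg (Nat.cast_nonneg n) (by linarith)
        _ = _ := by ring
    refine (Finset.sum_le_sum h2).trans ?_
    rw [← Finset.sum_mul]
    have h3 : ∑ j ∈ (range (n + 1)).filter (fun j => ¬ 2 * j ≤ n), ps n j ≤
        2 * ((n : ℝ) + 1) ^ 2 * ∑' i, g i := by
      refine le_trans ?_ (sum_ps n)
      refine Finset.sum_le_sum_of_subset_of_nonneg (Finset.filter_subset _ _) fun j _ _ => ?_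
      linarith [ps_ge (n := n) (j := j)]
    calc _ ≤ (2 * ((n : ℝ) + 1) ^ 2 * ∑' i, g i) * (n * (8 * δ / ((n : ℝ) + 1) ^ 3)) :=
          mul_le_mul_of_nonneg_right h3 (by positivity)
      _ = 16 * (∑' i, g i) * δ * (n / (n + 1)) := by
          field_simp
          ring
      _ ≤ 16 * (∑' i, g i) * δ * 1 := by
          apply mul_le_mul_of_nonneg_left _ (by positivity)
          rw [div_le_one (by positivity)]
          linarith
      _ = _ := mul_one _
  have h2 : |(n : ℝ) * ∑' j, x (j + (n + 1))| ≤ (∑' j : ℕ, 1 / ((j : ℝ) + 1) ^ 2) * δ := by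
    have h3 : ∀ j : ℕ, (n : ℝ) * |x (j + (n + 1))| ≤ 1 / ((j : ℝ) + 1) ^ 2 * δ := by
      intro j
      have h4 := hb (j + (n + 1)) (by omega)
      push_cast at h4
      have h5 : δ / ((j : ℝ) + (n + 1) + 1) ^ 3 ≤ δ / (((j : ℝ) + 1) ^ 2 * (n + 1)) := by
        apply div_le_div_of_nonneg_left hδ (by positivity)
        have a1 : (0 : ℝ) ≤ j := Nat.cast_nonneg j
        have a2 : (0 : ℝ) ≤ n := Nat.cast_nonneg n
        have a3 : ((j : ℝ) + 1) ^ 2 ≤ ((j : ℝ) + (n + 1) + 1) ^ 2 := by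
          gcongr
          linarith
        calc ((j : ℝ) + 1) ^ 2 * (n + 1) ≤ ((j : ℝ) + (n + 1) + 1) ^ 2 * ((j : ℝ) + (n + 1) + 1) := by
              apply mul_le_mul a3 _ (by positivity) (by positivity)
              linarith
          _ = _ := by ring
      calc (n : ℝ) * |x (j + (n + 1))| ≤ n * (δ / (((j : ℝ) + 1) ^ 2 * (n + 1))) :=
            mul_le_mul_of_nonneg_left (h4.trans h5) (Nat.cast_nonneg n)
        _ = 1 / ((j : ℝ) + 1) ^ 2 * δ * (n / (n + 1)) := by field_simp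
        _ ≤ 1 / ((j : ℝ) + 1) ^ 2 * δ * 1 := by
            apply mul_le_mul_of_nonneg_left _ (by positivity)
            rw [div_le_one (by positivity)]
            linarith
        _ = _ := mul_one _
    have h4 : Summable fun j => x (j + (n + 1)) := (summable_nat_add_iff (n + 1)).2 hx
    rw [abs_mul, abs_of_nonneg (Nat.cast_nonneg n : (0 : ℝ) ≤ n)]
    calc (n : ℝ) * |∑' j, x (j + (n + 1))| ≤ n * ∑' j, |x (j + (n + 1))| := by
          apply mul_le_mul_of_nonneg_left _ (Nat.cast_nonneg n)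
          have := norm_tsum_le_tsum_norm (f := fun j => x (j + (n + 1))) h4.abs
          simpa using this
      _ = ∑' j, (n : ℝ) * |x (j + (n + 1))| := tsum_mul_left.symm
      _ ≤ ∑' j : ℕ, 1 / ((j : ℝ) + 1) ^ 2 * δ :=
          (h4.abs.mul_left _).tsum_le_tsum h3 (hs2.mul_right _)
      _ = _ := tsum_mul_right
  calc _ ≤ 16 * (∑' i, g i) * δ + (∑' j : ℕ, 1 / ((j : ℝ) + 1) ^ 2) * δ :=
        (abs_sub _ _).trans (add_le_add h1 h2)
    _ = _ := by ring

/-- the head is bounded -/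
lemma hd_le {x : ℕ → ℝ} (hx : Summable fun j : ℕ => (j : ℝ) * |x j|) (n : ℕ) :
    |hd x n| ≤ 10 * ∑' j : ℕ, (j : ℝ) * |x j| := by
  unfold hd
  refine (Finset.abs_sum_le_sum_abs _ _).trans ?_
  have h1 : ∀ j ∈ (range (n + 1)).filter (fun j => 2 * j ≤ n),
      |n * (ps n j - 1) * x j| ≤ 10 * (j * |x j|) := by
    intro j hj
    rw [mem_filter] at hj
    have h4 : 0 ≤ ps n j - 1 := by linarith [ps_ge (n := n) (j := j)]
    rw [abs_mul, abs_of_nonneg (mul_nonneg (Nat.cast_nonneg n) h4)]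
    have h5 := ps_sub_le hj.2
    calc (n : ℝ) * (ps n j - 1) * |x j| ≤ 10 * j * |x j| :=
          mul_le_mul_of_nonneg_right h5 (abs_nonneg _)
      _ = _ := by ring
  refine (Finset.sum_le_sum h1).trans ?_
  rw [← Finset.mul_sum]
  exact mul_le_mul_of_nonneg_left (hx.sum_le_tsum _ fun j _ => by positivity) (by norm_num)

/-- the limit of the head -/
lemma hd_lim {x : ℕ → ℝ} (hx : Summable fun j : ℕ => (j : ℝ) * |x j|) :
    Tendsto (hd x) atTop (𝓝 (2 * ∑' j : ℕ, (j : ℝ) * x j)) := by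
  have h1 : ∀ n, hd x n = ∑' j, if 2 * j ≤ n then (n : ℝ) * (ps n j - 1) * x j else 0 := by
    intro n
    unfold hd
    rw [Finset.sum_filter, tsum_eq_sum]
    intro j hj
    rw [mem_range] at hj
    rw [if_neg]
    omega
  rw [← tsum_mul_left]
  simp only [funext h1]
  refine tendsto_tsum_of_dominated_convergence (hx.mul_left 10) ?_ ?_
  · intro j
    have h2 : Tendsto (fun n : ℕ => (n : ℝ) * (ps n j - 1) * x j) atTop (𝓝 (2 * j * x j)) :=
      (ps_lim j).mul_const _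
    rw [mul_assoc] at h2
    refine h2.congr' ?_
    filter_upwards [eventually_ge_atTop (2 * j)] with n hn
    rw [if_pos hn]
  · refine Eventually.of_forall fun n j => ?_
    rw [Real.norm_eq_abs]
    split_ifs with h
    · have h4 : 0 ≤ ps n j - 1 := by linarith [ps_ge (n := n) (j := j)]
      rw [abs_mul, abs_of_nonneg (mul_nonneg (Nat.cast_nonneg n) h4)]
      have h5 := ps_sub_le h
      calc (n : ℝ) * (ps n j - 1) * |x j| ≤ 10 * j * |x j| :=
            mul_le_mul_of_nonneg_right h5 (abs_nonneg _)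
        _ = _ := by ring
    · rw [abs_zero]
      positivity

end

end Pool.Agent.Q294.Md
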