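import Pool.Agent.Q294.Md.Base

/-! The value of `y0`. -/

set_option autoImplicit false

namespace Pool.Agent.Q294.Md

open Finset Filter Topology MeasureTheory ProbabilityTheory

noncomputable section

lemma hh_W (n : ℕ) : hh n * Real.Wallis.W n = 1 := by
  induction n with
  | zero => rw [hh_zero]; simp [Real.Wallis.W]
  | succ n ih =>
    rw [Real.Wallis.W_succ, hh_succ]
    have h1 : (1 - 1 / (4 * ((n : ℝ) + 1) ^ 2)) * ((2 * n + 2) / (2 * n + 1) * ((2 * n + 2) / (2 * n + 3))) = 1 := by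
      field_simp
      ring
    calc hh n * (1 - 1 / (4 * ((n : ℝ) + 1) ^ 2)) *
          (Real.Wallis.W n * ((2 * n + 2) / (2 * n + 1) * ((2 * n + 2) / (2 * n + 3)))) =
        (hh n * Real.Wallis.W n) * ((1 - 1 / (4 * ((n : ℝ) + 1) ^ 2)) *
          ((2 * n + 2) / (2 * n + 1) * ((2 * n + 2) / (2 * n + 3)))) := by ring
      _ = 1 := by rw [ih, h1, one_mul]

lemma hh_lim : Tendsto hh atTop (𝓝 (2 / Real.pi)) := by
  have h1 := Real.Wallis.tendsto_W_nhds_pi_div_two.inv₀ (by positivity)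
  rw [inv_div] at h1
  refine h1.congr fun n => ?_
  have h2 := hh_W n
  have h3 := Real.Wallis.W_pos n
  rw [inv_eq_one_div, div_eq_iff h3.ne', h2]

lemma sum_f (n : ℕ) : ∑ k ∈ range (n + 1), f k = (2 * n + 1) ^ 2 * (4 * n + 5) * f n - 4 := by
  induction n with
  | zero => simp [f_zero]; norm_num
  | succ n ih =>
    rw [Finset.sum_range_succ, ih, f_succ]
    push_cast
    field_simp
    ring

lemma y0_eq : y0 = 1 / Real.pi - 1 / 4 := by
  have h1 : Tendsto (fun n : ℕ => ∑ k ∈ range (n + 1 + 1), b k) atTop (𝓝 y0) :=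
    (b_summable.hasSum.tendsto_sum_nat.comp (tendsto_add_atTop_nat 2))
  have h2 : ∀ n : ℕ, ∑ k ∈ range (n + 1 + 1), b k =
      (hh n * ((2 * n + 1) * (4 * n + 5) / (n + 1) ^ 2) - 4) / 16 := by
    intro n
    rw [Finset.sum_range_succ', b_zero, add_zero]
    have h3 : ∑ k ∈ range (n + 1), b (k + 1) = (∑ k ∈ range (n + 1), f k) / 16 := by
      rw [Finset.sum_div]
      exact Finset.sum_congr rfl fun k _ => b_succ k
    rw [h3, sum_f]
    congr 2
    have h4 := g_eq n
    unfold g at h4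
    have h5 : f n = hh n / (n + 1) ^ 2 / (2 * n + 1) := by
      rw [← h4]
      field_simp
    rw [h5]
    field_simp
  have h3 : Tendsto (fun n : ℕ => (2 * (n : ℝ) + 1) * (4 * n + 5) / (n + 1) ^ 2) atTop (𝓝 8) := by
    have h4 : Tendsto (fun n : ℕ => (2 - 1 / ((n : ℝ) + 1)) * (4 + 1 / ((n : ℝ) + 1))) atTop
        (𝓝 ((2 - 0) * (4 + 0))) :=
      (tendsto_const_nhds.sub tendsto_one_div_add_atTop_nhds_zero_nat).mul
        (tendsto_const_nhds.add tendsto_one_div_add_atTop_nhds_zero_nat)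
    have e1 : ((2 : ℝ) - 0) * (4 + 0) = 8 := by norm_num
    rw [e1] at h4
    refine h4.congr fun n => ?_
    field_simp
    ring
  have h4 : Tendsto (fun n : ℕ => (hh n * ((2 * (n : ℝ) + 1) * (4 * n + 5) / (n + 1) ^ 2) - 4) / 16) atTop
      (𝓝 ((2 / Real.pi * 8 - 4) / 16)) := ((hh_lim.mul h3).sub_const 4).div_const 16
  have h5 := tendsto_nhds_unique (h1.congr h2) h4
  rw [h5]
  ring

end

end Pool.Agent.Q294.Md
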