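import Pool.Agent.Q294.Md.Var1
import Pool.Agent.Q294.Md.Wal

/-! Mean and variance. -/

set_option autoImplicit false

namespace Pool.Agent.Q294.Md

open Finset Filter Topology MeasureTheory ProbabilityTheory

noncomputable section

/-- `(j+1)³ b_j` -/
def bt (j : ℕ) : ℝ := ((j : ℝ) + 1) ^ 3 * b j

lemma bt_nonneg (j : ℕ) : 0 ≤ bt j := mul_nonneg (by positivity) (b_nonneg j)

lemma bt_le (j : ℕ) : bt j ≤ 1 / 2 := by
  unfold bt
  rcases j with _ | j
  · rw [b_zero, mul_zero]; norm_num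
  · have h1 := b_le (j + 1)
    push_cast at h1 ⊢
    have h0 : (0 : ℝ) ≤ j := Nat.cast_nonneg j
    have h2 : ((j : ℝ) + 1 + 1) ^ 3 ≤ (2 * (j + 1)) ^ 3 := by
      gcongr
      linarith
    calc ((j : ℝ) + 1 + 1) ^ 3 * b (j + 1) ≤ (2 * (j + 1)) ^ 3 * (1 / (16 * (j + 1) ^ 3)) :=
          mul_le_mul h2 h1 (b_nonneg _) (by positivity)
      _ = 1 / 2 := by field_simp; ring

lemma b_eq_bt (j : ℕ) : b j = bt j / ((j : ℝ) + 1) ^ 3 := by
  unfold bt
  field_simp

lemma b_le3 (j : ℕ) : b j ≤ 1 / 2 / ((j : ℝ) + 1) ^ 3 := by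
  rw [b_eq_bt]
  gcongr
  exact bt_le j

lemma bt_succ (n : ℕ) : bt (n + 1) = hh n * (((n : ℝ) + 2) ^ 3 / ((n + 1) ^ 2 * (2 * n + 1))) / 16 := by
  unfold bt
  rw [b_succ, f_eq, g_eq]
  push_cast
  field_simp
  ring

lemma bt_lim : Tendsto bt atTop (𝓝 (2 / Real.pi * (1 / 2) / 16)) := by
  rw [← tendsto_add_atTop_iff_nat 1]
  have h3 : Tendsto (fun n : ℕ => ((n : ℝ) + 2) ^ 3 / ((n + 1) ^ 2 * (2 * n + 1))) atTop (𝓝 (1 / 2)) := by
    have h0 := tendsto_one_div_add_atTop_nhds_zero_nat (𝕜 := ℝ)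
    have h4 : Tendsto (fun n : ℕ => (1 + 1 / ((n : ℝ) + 1)) ^ 3 / (2 - 1 / ((n : ℝ) + 1))) atTop
        (𝓝 ((1 + 0) ^ 3 / (2 - 0))) :=
      ((h0.const_add 1).pow 3).div (h0.const_sub 2) (by norm_num)
    have e1 : ((1 : ℝ) + 0) ^ 3 / (2 - 0) = 1 / 2 := by norm_num
    rw [e1] at h4
    refine h4.congr fun n => ?_
    have h5 : (2 : ℝ) * n + 1 ≠ 0 := by positivity
    have h6 : (2 : ℝ) - 1 / ((n : ℝ) + 1) = (2 * n + 1) / (n + 1) := by
      field_simp
      ring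
    rw [h6]
    field_simp
    ring
  exact ((hh_lim.mul h3).div_const 16).congr fun n => (bt_succ n).symm

/-- one half of the convolution -/
def hf (j i : ℕ) : ℝ := ((j : ℝ) + 1) ^ 3 * (b i * b (j - i))

lemma hf_nonneg (j i : ℕ) : 0 ≤ hf j i :=
  mul_nonneg (by positivity) (mul_nonneg (b_nonneg _) (b_nonneg _))

lemma hf_le {j i : ℕ} (h : 2 * i ≤ j) : hf j i ≤ 4 * b i := by
  unfold hf
  rw [b_eq_bt (j - i)]
  obtain ⟨k, rfl⟩ : ∃ k, j = k + i := ⟨j - i, by omega⟩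
  have hik : i ≤ k := by omega
  rw [Nat.add_sub_cancel]
  have h1 : (((k + i : ℕ) : ℝ) + 1) ^ 3 ≤ 8 * ((k : ℝ) + 1) ^ 3 := by
    have h2 : ((k + i : ℕ) : ℝ) + 1 ≤ 2 * ((k : ℝ) + 1) := by
      push_cast
      have : (i : ℝ) ≤ k := by exact_mod_cast hik
      linarith
    calc (((k + i : ℕ) : ℝ) + 1) ^ 3 ≤ (2 * ((k : ℝ) + 1)) ^ 3 := by gcongr
      _ = _ := by ring
  have h3 := bt_le k
  have h4 := bt_nonneg k
  have h5 := b_nonneg i
  calc (((k + i : ℕ) : ℝ) + 1) ^ 3 * (b i * (bt k / ((k : ℝ) + 1) ^ 3)) ≤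
        8 * ((k : ℝ) + 1) ^ 3 * (b i * ((1 / 2) / ((k : ℝ) + 1) ^ 3)) := by gcongr
    _ = 4 * b i := by field_simp; ring

lemma hf_lim (i : ℕ) : Tendsto (fun j => hf j i) atTop (𝓝 (b i * (2 / Real.pi * (1 / 2) / 16))) := by
  rw [← tendsto_add_atTop_iff_nat i]
  have h1 : ∀ k, hf (k + i) i = b i * ((1 + i * (1 / ((k : ℝ) + 1))) ^ 3 * bt k) := by
    intro k
    unfold hf bt
    rw [Nat.add_sub_cancel]
    push_cast
    field_simp
    ring
  simp only [h1]
  have h0 := tendsto_one_div_add_atTop_nhds_zero_nat (𝕜 := ℝ)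
  have h2 : Tendsto (fun k : ℕ => b i * ((1 + i * (1 / ((k : ℝ) + 1))) ^ 3 * bt k)) atTop
      (𝓝 (b i * ((1 + i * 0) ^ 3 * (2 / Real.pi * (1 / 2) / 16)))) :=
    ((((h0.const_mul _).const_add 1).pow 3).mul bt_lim).const_mul _
  rw [mul_zero, add_zero, one_pow, one_mul] at h2
  exact h2

lemma half_lim (P : ℕ → ℕ → Prop) [∀ j i, Decidable (P j i)] (h1 : ∀ j i, P j i → 2 * i ≤ j)
    (h2 : ∀ i, ∀ᶠ j in atTop, P j i) :
    Tendsto (fun j => ∑ i ∈ range (j + 1), if P j i then hf j i else 0) atTop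
      (𝓝 (y0 * (2 / Real.pi * (1 / 2) / 16))) := by
  have h3 : ∀ j, ∑ i ∈ range (j + 1), (if P j i then hf j i else 0) =
      ∑' i, if P j i then hf j i else 0 := by
    intro j
    rw [tsum_eq_sum]
    intro i hi
    rw [mem_range] at hi
    rw [if_neg]
    intro h
    have := h1 j i h
    omega
  simp only [h3]
  have h4 : y0 * (2 / Real.pi * (1 / 2) / 16) = ∑' i, b i * (2 / Real.pi * (1 / 2) / 16) := by
    rw [tsum_mul_right]
    rfl
  rw [h4]
  refine tendsto_tsum_of_dominated_convergence (b_summable.mul_left 4) ?_ ?_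
  · intro i
    refine (hf_lim i).congr' ?_
    filter_upwards [h2 i] with j hj
    rw [if_pos hj]
  · refine Eventually.of_forall fun j i => ?_
    rw [Real.norm_eq_abs]
    split_ifs with h
    · rw [abs_of_nonneg (hf_nonneg j i)]
      exact hf_le (h1 j i h)
    · rw [abs_zero]
      exact mul_nonneg (by norm_num) (b_nonneg i)

lemma b2_split (j : ℕ) : ((j : ℝ) + 1) ^ 3 * b2 j =
    (∑ i ∈ range (j + 1), if 2 * i ≤ j then hf j i else 0) +
      ∑ i ∈ range (j + 1), if 2 * i < j then hf j i else 0 := by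
  have h1 : ((j : ℝ) + 1) ^ 3 * b2 j = ∑ i ∈ range (j + 1), hf j i := by
    unfold b2
    rw [Finset.Nat.sum_antidiagonal_eq_sum_range_succ (fun i k => b i * b k), Finset.mul_sum]
    rfl
  have h2 : ∑ i ∈ range (j + 1), hf j i = ∑ i ∈ range (j + 1), (if 2 * i ≤ j then hf j i else 0) +
      ∑ i ∈ range (j + 1), (if 2 * i ≤ j then 0 else hf j i) := by
    rw [← Finset.sum_add_distrib]
    refine Finset.sum_congr rfl fun i _ => ?_
    split_ifs <;> simp
  rw [h1, h2]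
  congr 1
  rw [← Finset.sum_flip]
  refine Finset.sum_congr rfl fun i hi => ?_
  rw [mem_range] at hi
  by_cases h : 2 * i < j
  · rw [if_neg (by omega), if_pos h]
    unfold hf
    rw [show j - (j - i) = i by omega]
    ring
  · rw [if_pos (by omega), if_neg h]

/-- the remainder -/
def xx (j : ℕ) : ℝ := b2 j - 2 * y0 * b j

lemma xx_lim : Tendsto (fun j : ℕ => ((j : ℝ) + 1) ^ 3 * xx j) atTop (𝓝 0) := by
  have h1 := half_lim (fun j i => 2 * i ≤ j) (fun _ _ h => h)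
    (fun i => eventually_ge_atTop (2 * i))
  have h2 := half_lim (fun j i => 2 * i < j) (fun _ _ h => h.le)
    (fun i => eventually_gt_atTop (2 * i))
  have h3 := (h1.add h2).sub (bt_lim.const_mul (2 * y0))
  have e1 : y0 * (2 / Real.pi * (1 / 2) / 16) + y0 * (2 / Real.pi * (1 / 2) / 16) -
      2 * y0 * (2 / Real.pi * (1 / 2) / 16) = 0 := by ring
  rw [e1] at h3
  refine h3.congr fun j => ?_
  rw [← b2_split]
  unfold xx bt
  ring

lemma xx_bound : ∃ C : ℝ, 0 ≤ C ∧ ∀ j : ℕ, |xx j| ≤ C / ((j : ℝ) + 1) ^ 3 := by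
  obtain ⟨C, hC⟩ := xx_lim.abs.bddAbove_range
  have h1 : ∀ j : ℕ, |((j : ℝ) + 1) ^ 3 * xx j| ≤ C := fun j => hC ⟨j, rfl⟩
  refine ⟨C, (abs_nonneg _).trans (h1 0), fun j => ?_⟩
  have h2 := h1 j
  rw [abs_mul, abs_of_pos (by positivity : (0 : ℝ) < ((j : ℝ) + 1) ^ 3)] at h2
  rw [le_div_iff₀ (by positivity)]
  linarith

/-! ### Sums of convolutions -/

lemma conv_sum {u v : ℕ → ℝ} (hu : Summable u) (hv : Summable v) (hu0 : ∀ j, 0 ≤ u j)
    (hv0 : ∀ j, 0 ≤ v j) :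
    HasSum (fun j => ∑ p ∈ Finset.HasAntidiagonal.antidiagonal j, u p.1 * v p.2)
      ((∑' j, u j) * ∑' j, v j) := by
  have h2 : Summable fun x : ℕ × ℕ => u x.1 * v x.2 := hu.mul_of_nonneg hv hu0 hv0
  rw [hu.tsum_mul_tsum_eq_tsum_sum_antidiagonal hv h2]
  exact (summable_sum_mul_antidiagonal_of_summable_mul h2).hasSum

lemma b2_sum : HasSum b2 (y0 * y0) := conv_sum b_summable b_summable b_nonneg b_nonneg

lemma jb_nonneg (j : ℕ) : 0 ≤ (j : ℝ) * b j := mul_nonneg (Nat.cast_nonneg j) (b_nonneg j)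

lemma jb2_sum : HasSum (fun j : ℕ => (j : ℝ) * b2 j) (2 * y0 * ∑' j : ℕ, (j : ℝ) * b j) := by
  have h1 := conv_sum mul_b_summable b_summable jb_nonneg b_nonneg
  have h2 := conv_sum b_summable mul_b_summable b_nonneg jb_nonneg
  have h3 := h1.add h2
  have e1 : (∑' j : ℕ, (j : ℝ) * b j) * (∑' j, b j) + (∑' j, b j) * (∑' j : ℕ, (j : ℝ) * b j) =
      2 * y0 * ∑' j : ℕ, (j : ℝ) * b j := by
    unfold y0
    ring
  rw [e1] at h3
  have e2 : (fun j : ℕ => (j : ℝ) * b2 j) = fun j : ℕ =>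
      (∑ p ∈ Finset.HasAntidiagonal.antidiagonal j, (p.1 : ℝ) * b p.1 * b p.2) +
        ∑ p ∈ Finset.HasAntidiagonal.antidiagonal j, b p.1 * ((p.2 : ℝ) * b p.2) := by
    funext j
    unfold b2
    rw [Finset.mul_sum, ← Finset.sum_add_distrib]
    refine Finset.sum_congr rfl fun p hp => ?_
    rw [Finset.HasAntidiagonal.mem_antidiagonal] at hp
    rw [← hp]
    push_cast
    ring
  rw [e2]
  exact h3

lemma xx_summable : Summable xx := b2_sum.summable.sub (b_summable.mul_left _)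

lemma jxx_summable : Summable fun j : ℕ => (j : ℝ) * |xx j| := by
  obtain ⟨C, hC0, hC⟩ := xx_bound
  have hs2 : Summable fun j : ℕ => C * (1 / ((j : ℝ) + 1) ^ 2) := by
    have := (summable_nat_add_iff 1).2 (Real.summable_one_div_nat_pow.2 (show 1 < 2 by norm_num))
    exact Summable.mul_left _ (by simpa using this)
  refine Summable.of_nonneg_of_le (fun j => by positivity) (fun j => ?_) hs2
  calc (j : ℝ) * |xx j| ≤ (j + 1) * (C / ((j : ℝ) + 1) ^ 3) := by
        apply mul_le_mul _ (hC j) (abs_nonneg _) (by positivity)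
        linarith
    _ = C * (1 / ((j : ℝ) + 1) ^ 2) := by field_simp

lemma jxx_sum : ∑' j : ℕ, (j : ℝ) * xx j = 0 := by
  have h1 := jb2_sum.sub ((mul_b_summable.hasSum).mul_left (2 * y0))
  rw [sub_self] at h1
  rw [← h1.tsum_eq]
  refine tsum_congr fun j => ?_
  unfold xx
  ring

/-! ### Conclusion -/

lemma al_eq (n : ℕ) : n * (al n - y0) = Sx b n := rfl

lemma be_eq (n : ℕ) : n * (be n - y0 * y0) = Sx b2 n := by
  unfold Sx
  rw [b2_sum.tsum_eq]
  rfl

lemma Sx_xx (n : ℕ) : Sx xx n = Sx b2 n - 2 * y0 * Sx b n := by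
  unfold Sx
  have h1 : ∑' j, xx j = ∑' j, b2 j - 2 * y0 * ∑' j, b j := by
    unfold xx
    rw [b2_sum.summable.tsum_sub (b_summable.mul_left _), tsum_mul_left]
  have h2 : ∑ j ∈ range (n + 1), ps n j * xx j = ∑ j ∈ range (n + 1), ps n j * b2 j -
      2 * y0 * ∑ j ∈ range (n + 1), ps n j * b j := by
    rw [Finset.mul_sum, ← Finset.sum_sub_distrib]
    refine Finset.sum_congr rfl fun j _ => ?_
    unfold xx
    ring
  rw [h1, h2]
  ring

theorem mean : S_mean := by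
  obtain ⟨K, hK0, hK⟩ := tail_le
  have hs : Summable fun j : ℕ => (j : ℝ) * |b j| := by
    have : (fun j : ℕ => (j : ℝ) * |b j|) = fun j : ℕ => (j : ℝ) * b j := by
      funext j
      rw [abs_of_nonneg (b_nonneg j)]
    rw [this]
    exact mul_b_summable
  refine ⟨10 * ∑' j : ℕ, (j : ℝ) * |b j| + K * (1 / 2), fun n => ?_⟩
  rw [al_eq, Sx_eq b_summable]
  refine (abs_add_le _ _).trans (add_le_add (hd_le hs n) ?_)
  refine hK b n (1 / 2) b_summable (by norm_num) fun j _ => ?_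
  rw [abs_of_nonneg (b_nonneg j)]
  exact b_le3 j

lemma Sx_xx_lim : Tendsto (Sx xx) atTop (𝓝 0) := by
  obtain ⟨K, hK0, hK⟩ := tail_le
  have h1 := hd_lim jxx_summable
  rw [jxx_sum, mul_zero] at h1
  have h2 : Tendsto (fun n : ℕ =>
      ∑ j ∈ (range (n + 1)).filter (fun j => ¬ 2 * j ≤ n), n * (ps n j - 1) * xx j -
        n * ∑' j, xx (j + (n + 1))) atTop (𝓝 0) := by
    rw [Metric.tendsto_atTop]
    intro ε hε
    obtain ⟨δ, hδ0, hδ⟩ : ∃ δ : ℝ, 0 < δ ∧ K * δ < ε := by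
      refine ⟨ε / (K + 1) , by positivity, ?_⟩
      rw [mul_div_assoc', div_lt_iff₀ (by positivity)]
      nlinarith
    have h3 := (Metric.tendsto_atTop.1 xx_lim) δ hδ0
    obtain ⟨J, hJ⟩ := h3
    refine ⟨2 * J, fun n hn => ?_⟩
    rw [Real.dist_eq, sub_zero]
    refine lt_of_le_of_lt (hK xx n δ xx_summable hδ0.le fun j hj => ?_) hδ
    have h4 := hJ j (by omega)
    rw [Real.dist_eq, sub_zero, abs_mul, abs_of_pos (by positivity : (0 : ℝ) < ((j : ℝ) + 1) ^ 3)] at h4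
    rw [le_div_iff₀ (by positivity)]
    linarith
  have h3 := h1.add h2
  rw [add_zero] at h3
  exact h3.congr fun n => (Sx_eq xx_summable n).symm

theorem var : S_var := by
  obtain ⟨C, hC⟩ := mean
  have h1 : Tendsto (fun n : ℕ => Sx b n * (al n - y0)) atTop (𝓝 0) := by
    refine squeeze_zero_norm' (a := fun n : ℕ => C * C / n) ?_
      (tendsto_const_div_atTop_nhds_zero_nat (C * C))
    filter_upwards [eventually_gt_atTop 0] with n hn
    have h1 : (0 : ℝ) < n := by exact_mod_cast hn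
    have h2 := hC n
    rw [Real.norm_eq_abs, abs_mul, le_div_iff₀ h1]
    have h3 : |al n - y0| * n ≤ C := by
      rw [abs_mul, abs_of_pos h1] at h2
      linarith
    have h4 : |Sx b n| ≤ C := by
      rw [← al_eq]
      exact h2
    calc |Sx b n| * |al n - y0| * n = |Sx b n| * (|al n - y0| * n) := by ring
      _ ≤ C * C := mul_le_mul h4 h3 (by positivity) ((abs_nonneg _).trans h4)
  have h2 := Sx_xx_lim.sub h1
  rw [sub_zero] at h2
  refine h2.congr fun n => ?_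
  rw [Sx_xx, ← be_eq, ← al_eq]
  ring

end

end Pool.Agent.Q294.Md
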